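import Mathlib

/-!
# Internal nuclei of a set of `q + 1` points: algebra
-/

set_option autoImplicit false

open scoped LinearAlgebra.Projectivization
open Matrix Projectivization Finset

namespace Run7.h255.NH

variable {K : Type} [Field K]

/-- the determinant of three vectors -/
def D (a b c : Fin 3 → K) : K :=
  a 0 * (b 1 * c 2 - b 2 * c 1) + a 1 * (b 2 * c 0 - b 0 * c 2) + a 2 * (b 0 * c 1 - b 1 * c 0)

theorem D_eq (a b c : Fin 3 → K) : D a b c = a ⬝ᵥ (crossProduct b c) := by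
  simp [D, crossProduct, dotProduct, Fin.sum_univ_three]

theorem D_swap (a b c : Fin 3 → K) : D c b a = - D a b c := by
  unfold D; ring

theorem cramer (t i l j k : Fin 3 → K) :
    (t ⬝ᵥ i) * D l j k - (t ⬝ᵥ l) * D i j k + (t ⬝ᵥ j) * D i l k - (t ⬝ᵥ k) * D i l j = 0 := by
  simp only [D, dotProduct, Fin.sum_univ_three]; ring

theorem pluck (i l m j k : Fin 3 → K) :
    D i l k * D i m j - D i m k * D i l j = D i l m * D i k j := by
  simp only [D]; ring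

theorem prod_units_neg [Fintype K] [DecidableEq K] (R : Finset Kˣ)
    (h : R.card + 1 = Fintype.card K) : ∏ x ∈ R, x = -1 := by
  have h1 : R = univ := by
    apply Finset.eq_univ_of_card
    rw [Fintype.card_units]
    omega
  rw [h1]
  exact FiniteField.prod_univ_units_id_eq_neg_one

/-- the lemma of tangents at one point -/
theorem seg [Fintype K] [DecidableEq K] {ι : Type} [DecidableEq ι] (S : Finset ι)
    (hcard : S.card + 2 = Fintype.card K) (u : ι → Fin 3 → K) (i j k t : Fin 3 → K)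
    (hti : t ⬝ᵥ i = 0) (htj : t ⬝ᵥ j ≠ 0) (htk : t ⬝ᵥ k ≠ 0) (htS : ∀ l ∈ S, t ⬝ᵥ u l ≠ 0)
    (hijk : D i j k ≠ 0) (hj : ∀ l ∈ S, D i (u l) j ≠ 0) (hk : ∀ l ∈ S, D i (u l) k ≠ 0)
    (hS : ∀ l ∈ S, ∀ m ∈ S, l ≠ m → D i (u l) (u m) ≠ 0) :
    (t ⬝ᵥ k) * ∏ l ∈ S, D i (u l) k = - ((t ⬝ᵥ j) * ∏ l ∈ S, D i (u l) j) := by
  classical
  have hikj : D i k j ≠ 0 := by
    intro h
    apply hijk
    have : D i j k = - D i k j := by unfold D; ring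
    rw [this, h, neg_zero]
  let r : ι → Kˣ := fun l => if h : D i (u l) k ≠ 0 ∧ D i (u l) j ≠ 0 then
    Units.mk0 (D i (u l) k / D i (u l) j) (div_ne_zero h.1 h.2) else 1
  have hr : ∀ l ∈ S, ((r l : Kˣ) : K) = D i (u l) k / D i (u l) j := by
    intro l hl
    simp only [r]
    rw [dif_pos ⟨hk l hl, hj l hl⟩]
    rfl
  let r0 : Kˣ := Units.mk0 ((t ⬝ᵥ k) / (t ⬝ᵥ j)) (div_ne_zero htk htj)
  have hinj : Set.InjOn r S := by
    intro l hl m hm h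
    by_contra hne
    have h1 : D i (u l) k / D i (u l) j = D i (u m) k / D i (u m) j := by
      rw [← hr l hl, ← hr m hm, h]
    rw [div_eq_div_iff (hj l hl) (hj m hm)] at h1
    have h2 := pluck i (u l) (u m) j k
    rw [h1] at h2
    have h3 : D i (u l) (u m) * D i k j = 0 := by rw [← h2]; ring
    exact (mul_ne_zero (hS l hl m hm hne) hikj) h3
  have hnot : r0 ∉ S.image r := by
    intro h
    obtain ⟨l, hl, he⟩ := Finset.mem_image.1 h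
    have h1 : D i (u l) k / D i (u l) j = (t ⬝ᵥ k) / (t ⬝ᵥ j) := by
      rw [← hr l hl, he]; rfl
    rw [div_eq_div_iff (hj l hl) htj] at h1
    have h2 := cramer t i (u l) j k
    rw [hti] at h2
    have h3 : (t ⬝ᵥ u l) * D i j k = 0 := by linear_combination -h2 + h1
    exact (mul_ne_zero (htS l hl) hijk) h3
  have hc : (insert r0 (S.image r)).card + 1 = Fintype.card K := by
    rw [Finset.card_insert_of_notMem hnot, Finset.card_image_of_injOn hinj]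
    omega
  have h1 := prod_units_neg _ hc
  rw [Finset.prod_insert hnot, Finset.prod_image (fun a ha b hb h => hinj ha hb h)] at h1
  have h2 : ((t ⬝ᵥ k) / (t ⬝ᵥ j)) * ∏ l ∈ S, (D i (u l) k / D i (u l) j) = -1 := by
    have h3 := congrArg (fun x : Kˣ => (x : K)) h1
    simp only [Units.val_mul, Units.coe_prod, Units.val_neg, Units.val_one] at h3
    rw [← h3]
    congr 1
    exact Finset.prod_congr rfl fun l hl => (hr l hl).symm
  rw [Finset.prod_div_distrib] at h2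
  have h4 : ∏ l ∈ S, D i (u l) j ≠ 0 := Finset.prod_ne_zero_iff.2 hj
  rw [div_mul_div_comm, div_eq_iff (mul_ne_zero htj h4)] at h2
  rw [h2]; ring

/-- the lemma of tangents for three good points -/
theorem triple [Fintype K] [DecidableEq K] {ι : Type} [DecidableEq ι] (S : Finset ι)
    (hcard : S.card + 2 = Fintype.card K) (hodd : Odd (Fintype.card K)) (u : ι → Fin 3 → K)
    (i j k ti tj tk : Fin 3 → K)
    (h1 : ti ⬝ᵥ i = 0) (h2 : ti ⬝ᵥ j ≠ 0) (h3 : ti ⬝ᵥ k ≠ 0) (h4 : ∀ l ∈ S, ti ⬝ᵥ u l ≠ 0)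
    (h5 : tj ⬝ᵥ j = 0) (h6 : tj ⬝ᵥ k ≠ 0) (h7 : tj ⬝ᵥ i ≠ 0) (h8 : ∀ l ∈ S, tj ⬝ᵥ u l ≠ 0)
    (h9 : tk ⬝ᵥ k = 0) (h10 : tk ⬝ᵥ i ≠ 0) (h11 : tk ⬝ᵥ j ≠ 0) (h12 : ∀ l ∈ S, tk ⬝ᵥ u l ≠ 0)
    (hijk : D i j k ≠ 0)
    (hij : ∀ l ∈ S, D i (u l) j ≠ 0) (hik : ∀ l ∈ S, D i (u l) k ≠ 0)
    (hjk : ∀ l ∈ S, D j (u l) k ≠ 0)
    (hi : ∀ l ∈ S, ∀ m ∈ S, l ≠ m → D i (u l) (u m) ≠ 0)
    (hj : ∀ l ∈ S, ∀ m ∈ S, l ≠ m → D j (u l) (u m) ≠ 0)
    (hk : ∀ l ∈ S, ∀ m ∈ S, l ≠ m → D k (u l) (u m) ≠ 0) :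
    (ti ⬝ᵥ j) * (tj ⬝ᵥ k) * (tk ⬝ᵥ i) = (ti ⬝ᵥ k) * (tk ⬝ᵥ j) * (tj ⬝ᵥ i) := by
  have hS : Odd S.card := by
    rw [← hcard] at hodd
    rcases hodd with ⟨m, hm⟩
    exact ⟨m - 1, by omega⟩
  have hsw : ∀ a b : Fin 3 → K, ∏ l ∈ S, D b (u l) a = - ∏ l ∈ S, D a (u l) b := by
    intro a b
    rw [Finset.prod_congr rfl (fun l _ => D_swap a (u l) b), Finset.prod_neg, hS.neg_one_pow]
    ring
  have hne : ∀ a b : Fin 3 → K, (∀ l ∈ S, D a (u l) b ≠ 0) → ∀ l ∈ S, D b (u l) a ≠ 0 := by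
    intro a b h l hl
    rw [D_swap]
    exact neg_ne_zero.2 (h l hl)
  have hjki : D j k i ≠ 0 := by
    have : D j k i = D i j k := by unfold D; ring
    rw [this]; exact hijk
  have hkij : D k i j ≠ 0 := by
    have : D k i j = D i j k := by unfold D; ring
    rw [this]; exact hijk
  have e1 := seg S hcard u i j k ti h1 h2 h3 h4 hijk hij hik hi
  have e2 := seg S hcard u j k i tj h5 h6 h7 h8 hjki hjk (hne _ _ hij) hj
  have e3 := seg S hcard u k i j tk h9 h10 h11 h12 hkij (hne _ _ hik) (hne _ _ hjk) hk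
  rw [hsw i j] at e2
  rw [hsw j k, hsw i k] at e3
  have n1 : ∏ l ∈ S, D i (u l) j ≠ 0 := Finset.prod_ne_zero_iff.2 hij
  have n2 : ∏ l ∈ S, D i (u l) k ≠ 0 := Finset.prod_ne_zero_iff.2 hik
  have n3 : ∏ l ∈ S, D j (u l) k ≠ 0 := Finset.prod_ne_zero_iff.2 hjk
  set A := ∏ l ∈ S, D i (u l) j
  set B := ∏ l ∈ S, D i (u l) k
  set C := ∏ l ∈ S, D j (u l) k
  have h := mul_ne_zero (mul_ne_zero n1 n2) n3
  apply mul_left_cancel₀ h
  have f1 : (ti ⬝ᵥ k) * B = -((ti ⬝ᵥ j) * A) := e1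
  have f2 : (tj ⬝ᵥ i) * A = (tj ⬝ᵥ k) * C := by linear_combination -e2
  have f3 : (tk ⬝ᵥ j) * C = -((tk ⬝ᵥ i) * B) := by linear_combination -e3
  calc A * B * C * (ti ⬝ᵥ j * tj ⬝ᵥ k * tk ⬝ᵥ i)
      = (-((ti ⬝ᵥ j) * A)) * ((tj ⬝ᵥ k) * C) * (-((tk ⬝ᵥ i) * B)) := by ring
    _ = ((ti ⬝ᵥ k) * B) * ((tj ⬝ᵥ i) * A) * ((tk ⬝ᵥ j) * C) := by rw [f1, f2, f3]
    _ = _ := by ring

end Run7.h255.NH
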