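import Mathlib
import Pool.Agent.Run7.h255.NH.Alg

/-!
# Internal nuclei of a set of `q + 1` points: counting
-/

set_option autoImplicit false

open scoped LinearAlgebra.Projectivization
open Matrix Projectivization Finset

namespace Run7.h255.NH

variable {K : Type} [Field K] [Fintype K] [DecidableEq K]


noncomputable instance : Fintype (ℙ K (Fin 3 → K)) := Fintype.ofFinite _
noncomputable instance : DecidableEq (ℙ K (Fin 3 → K)) := Classical.decEq _

theorem card_plane : Fintype.card (ℙ K (Fin 3 → K)) = Fintype.card K ^ 2 + Fintype.card K + 1 := by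
  have h := Projectivization.card_of_finrank (k := K) (V := Fin 3 → K) (n := 3) (by simp)
  rw [Nat.card_eq_fintype_card, Finset.sum_range_succ, Finset.sum_range_succ,
    Finset.sum_range_succ, Nat.card_eq_fintype_card] at h
  rw [h]; simp; ring

theorem order_eq : Configuration.ProjectivePlane.order (ℙ K (Fin 3 → K)) (ℙ K (Fin 3 → K)) = Fintype.card K := by
  have h := Configuration.ProjectivePlane.card_points (ℙ K (Fin 3 → K)) (ℙ K (Fin 3 → K))
  rw [card_plane] at h
  have h1 : ∀ a b : ℕ, a ^ 2 + a + 1 = b ^ 2 + b + 1 → a = b := by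
    intro a b hab
    rcases lt_trichotomy a b with h | h | h
    · nlinarith
    · exact h
    · nlinarith
  exact (h1 _ _ h).symm

open Classical in
theorem card_lines (P : (ℙ K (Fin 3 → K))) : (univ.filter (fun l : (ℙ K (Fin 3 → K)) => P.orthogonal l)).card =
    Fintype.card K + 1 := by
  have h := Configuration.ProjectivePlane.lineCount_eq (L := (ℙ K (Fin 3 → K))) P
  rw [order_eq] at h
  rw [← h, Configuration.lineCount, Nat.card_eq_fintype_card, Fintype.card_subtype]
  rfl

theorem orth_iff (P l : (ℙ K (Fin 3 → K))) : P.orthogonal l ↔ l.rep ⬝ᵥ P.rep = 0 := by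
  have h := orthogonal_mk (F := K) P.rep_nonzero l.rep_nonzero
  rw [mk_rep, mk_rep] at h
  rw [h, dotProduct_comm]

theorem orth_cross (P Q R : (ℙ K (Fin 3 → K))) (h : Q ≠ R) :
    P.orthogonal (cross Q R) ↔ D P.rep Q.rep R.rep = 0 := by
  have hne : crossProduct Q.rep R.rep ≠ 0 :=
    mt (mk_eq_mk_iff_crossProduct_eq_zero Q.rep_nonzero R.rep_nonzero).mpr
      (by rwa [mk_rep, mk_rep])
  have h1 : cross Q R = Projectivization.mk K (crossProduct Q.rep R.rep) hne := by
    conv_lhs => rw [← Q.mk_rep, ← R.mk_rep]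
    exact cross_mk_of_ne _ _ (by rwa [mk_rep, mk_rep])
  rw [h1, D_eq]
  have h2 := orthogonal_mk (F := K) P.rep_nonzero hne
  rw [mk_rep] at h2
  exact h2

/-- a point of `S` on no line with three points of `S` -/
def Good (S : Finset (ℙ K (Fin 3 → K))) (P : (ℙ K (Fin 3 → K))) : Prop :=
  P ∈ S ∧ ∀ Q ∈ S, ∀ R ∈ S, Q ≠ P → R ≠ P → Q ≠ R → D P.rep Q.rep R.rep ≠ 0

theorem exists_tangent {S : Finset (ℙ K (Fin 3 → K))} (hS : S.card = Fintype.card K + 1) {P : (ℙ K (Fin 3 → K))}
    (hP : Good S P) : ∃ t : (ℙ K (Fin 3 → K)), P.orthogonal t ∧ (∀ Q ∈ S, Q ≠ P → ¬ Q.orthogonal t) ∧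
      ∀ m : (ℙ K (Fin 3 → K)), P.orthogonal m → m ≠ t → ∃ Q ∈ S, Q ≠ P ∧ Q.orthogonal m := by
  classical
  set I := (S.erase P).image (fun Q => cross P Q) with hI
  have hinj : Set.InjOn (fun Q => cross P Q) (S.erase P : Finset (ℙ K (Fin 3 → K))) := by
    intro Q hQ R hR h
    by_contra hne
    have hQ' := Finset.mem_erase.1 (Finset.mem_coe.1 hQ)
    have hR' := Finset.mem_erase.1 (Finset.mem_coe.1 hR)
    refine hP.2 Q hQ'.2 R hR'.2 hQ'.1 hR'.1 hne ?_
    have h1 : R.orthogonal (cross P Q) := by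
      have h2 : cross P Q = cross P R := h
      rw [h2]
      exact orthogonal_cross_right hR'.1.symm
    rw [orth_cross R P Q hQ'.1.symm] at h1
    rw [← h1]; unfold D; ring
  have hcard : I.card = Fintype.card K := by
    rw [hI, Finset.card_image_of_injOn hinj, Finset.card_erase_of_mem hP.1, hS]
    simp
  have hsub : I ⊆ univ.filter (fun l : (ℙ K (Fin 3 → K)) => P.orthogonal l) := by
    intro l hl
    obtain ⟨Q, hQ, rfl⟩ := Finset.mem_image.1 hl
    rw [Finset.mem_filter]
    exact ⟨mem_univ _, orthogonal_cross_left (Finset.mem_erase.1 hQ).1.symm⟩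
  have hd : (univ.filter (fun l : (ℙ K (Fin 3 → K)) => P.orthogonal l) \ I).card = 1 := by
    rw [Finset.card_sdiff_of_subset hsub, card_lines, hcard]
    omega
  obtain ⟨t, ht⟩ := Finset.card_eq_one.1 hd
  have ht' : t ∈ univ.filter (fun l : (ℙ K (Fin 3 → K)) => P.orthogonal l) \ I := by
    rw [ht]; exact Finset.mem_singleton_self t
  rw [Finset.mem_sdiff, Finset.mem_filter] at ht'
  refine ⟨t, ht'.1.2, fun Q hQ hne hQt => ht'.2 ?_, fun m hm hmt => ?_⟩
  · rw [hI, Finset.mem_image]
    refine ⟨Q, Finset.mem_erase.2 ⟨hne, hQ⟩, ?_⟩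
    have h1 := Configuration.ofField.eq_or_eq_of_orthogonal
      (orthogonal_cross_left (v := P) (w := Q) hne.symm) (orthogonal_cross_right hne.symm)
      ht'.1.2 hQt
    exact h1.resolve_left hne.symm
  · by_contra hcon
    have h1 : m ∈ univ.filter (fun l : (ℙ K (Fin 3 → K)) => P.orthogonal l) \ I := by
      rw [Finset.mem_sdiff, Finset.mem_filter]
      refine ⟨⟨mem_univ _, hm⟩, fun hmI => hcon ?_⟩
      obtain ⟨Q, hQ, rfl⟩ := Finset.mem_image.1 hmI
      have := Finset.mem_erase.1 hQ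
      exact ⟨Q, this.2, this.1, orthogonal_cross_right this.1.symm⟩
    rw [ht, Finset.mem_singleton] at h1
    exact hmt h1

end Run7.h255.NH
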