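import Mathlib
import Pool.Agent.Run7.h255.NH.Count

/-!
# Internal nuclei of a set of `q + 1` points: the conic
-/

set_option autoImplicit false

open scoped LinearAlgebra.Projectivization
open Matrix Projectivization Finset

namespace Run7.h255.NH

variable {K : Type} [Field K] [Fintype K] [DecidableEq K]


theorem tangent_vec {S : Finset (ℙ K (Fin 3 → K))} (hS : S.card = Fintype.card K + 1) {P : (ℙ K (Fin 3 → K))}
    (hP : Good S P) : ∃ t : Fin 3 → K, t ⬝ᵥ P.rep = 0 ∧ (∀ Q ∈ S, Q ≠ P → t ⬝ᵥ Q.rep ≠ 0) ∧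
      ∀ v : Fin 3 → K, t ⬝ᵥ v ≠ 0 → ∃ Q ∈ S, Q ≠ P ∧ D P.rep v Q.rep = 0 := by
  obtain ⟨t, h1, h2, h3⟩ := exists_tangent hS hP
  refine ⟨t.rep, (orth_iff _ _).1 h1, fun Q hQ hne h => h2 Q hQ hne ((orth_iff _ _).2 h), ?_⟩
  intro v hv
  have hv0 : v ≠ 0 := by
    rintro rfl
    exact hv (by simp)
  have hne : Projectivization.mk K v hv0 ≠ P := by
    intro h
    apply hv
    have h4 := (orth_iff _ _).1 (h ▸ h1 : (Projectivization.mk K v hv0).orthogonal t)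
    have h5 := (orthogonal_mk (F := K) hv0 t.rep_nonzero)
    rw [mk_rep, orth_iff] at h5
    rw [dotProduct_comm]
    exact h5.1 h4
  have hc : crossProduct P.rep v ≠ 0 := by
    intro h
    apply hne
    have h4 := (mk_eq_mk_iff_crossProduct_eq_zero P.rep_nonzero hv0).2 h
    rw [mk_rep] at h4
    exact h4.symm
  obtain ⟨Q, hQ, hQP, hQm⟩ := h3 (Projectivization.mk K _ hc) (by
      have h4 := orthogonal_mk (F := K) P.rep_nonzero hc
      rw [mk_rep] at h4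
      rw [h4]
      exact dot_self_cross _ _) (by
      intro h
      apply hv
      have h4 := orthogonal_mk (F := K) hv0 hc
      rw [h] at h4
      have h5 := (orthogonal_mk (F := K) hv0 t.rep_nonzero)
      rw [mk_rep] at h5
      rw [dotProduct_comm]
      exact h5.1 (h4.2 (dot_cross_self _ _)))
  refine ⟨Q, hQ, hQP, ?_⟩
  have h4 := orthogonal_mk (F := K) Q.rep_nonzero hc
  rw [mk_rep] at h4
  have h5 : D Q.rep P.rep v = 0 := by
    rw [D_eq]
    exact h4.1 hQm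
  rw [← h5]; unfold D; ring

/-- normalised tangent forms -/
theorem exists_forms {S : Finset (ℙ K (Fin 3 → K))} (hS : S.card = Fintype.card K + 1)
    (hodd : Odd (Fintype.card K)) {o : (ℙ K (Fin 3 → K))} (ho : Good S o) :
    ∃ T : (ℙ K (Fin 3 → K)) → Fin 3 → K, (∀ P, Good S P → T P ⬝ᵥ P.rep = 0 ∧
        (∀ Q ∈ S, Q ≠ P → T P ⬝ᵥ Q.rep ≠ 0) ∧
        ∀ v : Fin 3 → K, T P ⬝ᵥ v ≠ 0 → ∃ Q ∈ S, Q ≠ P ∧ D P.rep v Q.rep = 0) ∧
      ∀ P Q, Good S P → Good S Q → T P ⬝ᵥ Q.rep = T Q ⬝ᵥ P.rep := by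
  classical
  have hex : ∀ P : (ℙ K (Fin 3 → K)), ∃ t : Fin 3 → K, Good S P → (t ⬝ᵥ P.rep = 0 ∧
      (∀ Q ∈ S, Q ≠ P → t ⬝ᵥ Q.rep ≠ 0) ∧
      ∀ v : Fin 3 → K, t ⬝ᵥ v ≠ 0 → ∃ Q ∈ S, Q ≠ P ∧ D P.rep v Q.rep = 0) := by
    intro P
    by_cases hP : Good S P
    · obtain ⟨t, ht⟩ := tangent_vec hS hP
      exact ⟨t, fun _ => ht⟩
    · exact ⟨0, fun h => absurd h hP⟩
  choose t ht using hex
  have hs : ∀ P, Good S P → (if P = o then (1 : K) else (t o ⬝ᵥ P.rep) / (t P ⬝ᵥ o.rep)) ≠ 0 := by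
    intro P hP
    split_ifs with h
    · exact one_ne_zero
    · exact div_ne_zero ((ht o ho).2.1 P hP.1 h) ((ht P hP).2.1 o ho.1 (Ne.symm h))
  refine ⟨fun P => (if P = o then (1 : K) else (t o ⬝ᵥ P.rep) / (t P ⬝ᵥ o.rep)) • t P, ?_, ?_⟩
  · intro P hP
    obtain ⟨h1, h2, h3⟩ := ht P hP
    refine ⟨?_, ?_, ?_⟩
    · simp only [smul_dotProduct, h1, smul_zero]
    · intro Q hQ hne
      simp only [smul_dotProduct, smul_eq_mul]
      exact mul_ne_zero (hs P hP) (h2 Q hQ hne)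
    · intro v hv
      simp only [smul_dotProduct, smul_eq_mul] at hv
      exact h3 v (right_ne_zero_of_mul hv)
  · intro P Q hP hQ
    rcases eq_or_ne P Q with rfl | hPQ
    · rfl
    obtain ⟨p1, p2, -⟩ := ht P hP
    obtain ⟨q1, q2, -⟩ := ht Q hQ
    obtain ⟨o1, o2, -⟩ := ht o ho
    simp only [smul_dotProduct, smul_eq_mul]
    by_cases hPo : P = o
    · subst hPo
      rw [if_pos rfl, if_neg hPQ.symm, one_mul, div_mul_cancel₀ _ (q2 P ho.1 hPQ)]
    by_cases hQo : Q = o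
    · subst hQo
      rw [if_pos rfl, if_neg hPo, one_mul, div_mul_cancel₀ _ (p2 Q ho.1 hPQ.symm)]
    rw [if_neg hPo, if_neg hQo, div_mul_eq_mul_div, div_mul_eq_mul_div,
      div_eq_div_iff (p2 o ho.1 (Ne.symm hPo)) (q2 o ho.1 (Ne.symm hQo))]
    have hcard : (((S.erase o).erase P).erase Q).card + 2 = Fintype.card K := by
      rw [Finset.card_erase_of_mem, Finset.card_erase_of_mem, Finset.card_erase_of_mem ho.1, hS]
      · obtain ⟨m, hm⟩ := hodd
        have : 3 ≤ S.card := by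
          have h3 : ({o, P, Q} : Finset (ℙ K (Fin 3 → K))) ⊆ S := by
            intro x hx
            simp only [Finset.mem_insert, Finset.mem_singleton] at hx
            rcases hx with rfl | rfl | rfl
            · exact ho.1
            · exact hP.1
            · exact hQ.1
          have h4 := Finset.card_le_card h3
          rwa [Finset.card_eq_three.2 ⟨o, P, Q, Ne.symm hPo, Ne.symm hQo, hPQ, rfl⟩] at h4
        omega
      · exact Finset.mem_erase.2 ⟨hPo, hP.1⟩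
      · exact Finset.mem_erase.2 ⟨hPQ.symm, Finset.mem_erase.2 ⟨hQo, hQ.1⟩⟩
    have hmem : ∀ l ∈ (((S.erase o).erase P).erase Q), l ∈ S ∧ l ≠ o ∧ l ≠ P ∧ l ≠ Q := by
      intro l hl
      simp only [Finset.mem_erase] at hl
      exact ⟨hl.2.2.2, hl.2.2.1, hl.2.1, hl.1⟩
    have h := triple (((S.erase o).erase P).erase Q) hcard hodd (fun l => l.rep) o.rep P.rep Q.rep
      (t o) (t P) (t Q) o1 (o2 P hP.1 hPo) (o2 Q hQ.1 hQo)
      (fun l hl => o2 l (hmem l hl).1 (hmem l hl).2.1)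
      p1 (p2 Q hQ.1 hPQ.symm) (p2 o ho.1 (Ne.symm hPo))
      (fun l hl => p2 l (hmem l hl).1 (hmem l hl).2.2.1)
      q1 (q2 o ho.1 (Ne.symm hQo)) (q2 P hP.1 hPQ)
      (fun l hl => q2 l (hmem l hl).1 (hmem l hl).2.2.2)
      (ho.2 P hP.1 Q hQ.1 hPo hQo hPQ)
      (fun l hl => ho.2 l (hmem l hl).1 P hP.1 (hmem l hl).2.1 hPo (hmem l hl).2.2.1)
      (fun l hl => ho.2 l (hmem l hl).1 Q hQ.1 (hmem l hl).2.1 hQo (hmem l hl).2.2.2)
      (fun l hl => hP.2 l (hmem l hl).1 Q hQ.1 (hmem l hl).2.2.1 hPQ.symm (hmem l hl).2.2.2)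
      (fun l hl m hm hne => ho.2 l (hmem l hl).1 m (hmem m hm).1 (hmem l hl).2.1
        (hmem m hm).2.1 hne)
      (fun l hl m hm hne => hP.2 l (hmem l hl).1 m (hmem m hm).1 (hmem l hl).2.2.1
        (hmem m hm).2.2.1 hne)
      (fun l hl m hm hne => hQ.2 l (hmem l hl).1 m (hmem m hm).1 (hmem l hl).2.2.2
        (hmem m hm).2.2.2 hne)
    linear_combination h

theorem expand (a b c y : Fin 3 → K) :
    D a b c • y = D y b c • a + D a y c • b + D a b y • c := by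
  ext i
  simp only [D, Pi.add_apply, Pi.smul_apply, smul_eq_mul]
  fin_cases i <;> simp <;> ring

/-- the bilinear form -/
theorem exists_bilin {S : Finset (ℙ K (Fin 3 → K))} (hS : S.card = Fintype.card K + 1)
    (hodd : Odd (Fintype.card K)) (h2 : (2 : K) ≠ 0) {A B C : (ℙ K (Fin 3 → K))} (hA : Good S A)
    (hB : Good S B) (hC : Good S C) (hAB : A ≠ B) (hAC : A ≠ C) (hBC : B ≠ C) :
    ∃ β : (Fin 3 → K) →ₗ[K] (Fin 3 → K) →ₗ[K] K, (∀ x y, β x y = β y x) ∧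
      (∀ x, (∀ y, β x y = 0) → x = 0) ∧ ∀ P, Good S P → β P.rep P.rep = 0 ∧
        (∀ Q ∈ S, Q ≠ P → β P.rep Q.rep ≠ 0) ∧
        ∀ v : Fin 3 → K, β P.rep v ≠ 0 → ∃ Q ∈ S, Q ≠ P ∧ D P.rep v Q.rep = 0 := by
  obtain ⟨T, hT, hsym⟩ := exists_forms hS hodd hA
  set R : Matrix (Fin 3) (Fin 3) K := Matrix.of ![A.rep, B.rep, C.rep] with hR
  set V : Matrix (Fin 3) (Fin 3) K := Matrix.of ![T A, T B, T C] with hV
  have hRdet : R.det ≠ 0 := by
    have h1 : R.det = D A.rep B.rep C.rep := by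
      rw [hR, Matrix.det_fin_three]
      simp [D]
      ring
    rw [h1]
    exact hA.2 B hB.1 C hC.1 hAB.symm hAC.symm hBC
  have hRu : IsUnit R.det := isUnit_iff_ne_zero.2 hRdet
  have hRtu : IsUnit Rᵀ.det := by rw [Matrix.det_transpose]; exact hRu
  have hVR : V * Rᵀ = R * Vᵀ := by
    ext i j
    rw [Matrix.mul_apply', Matrix.mul_apply']
    change V i ⬝ᵥ (fun k => Rᵀ k j) = R i ⬝ᵥ (fun k => Vᵀ k j)
    have e1 : (fun k => Rᵀ k j) = R j := rfl
    have e2 : (fun k => Vᵀ k j) = V j := rfl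
    rw [e1, e2, dotProduct_comm (R i)]
    fin_cases i <;> fin_cases j
    · rfl
    · exact hsym A B hA hB
    · exact hsym A C hA hC
    · exact hsym B A hB hA
    · rfl
    · exact hsym B C hB hC
    · exact hsym C A hC hA
    · exact hsym C B hC hB
    · rfl
  set M : Matrix (Fin 3) (Fin 3) K := R⁻¹ * V with hM
  have hMt : Mᵀ = M := by
    have h1 : M = R⁻¹ * (V * Rᵀ) * (Rᵀ)⁻¹ := by
      rw [hM, Matrix.mul_assoc, Matrix.mul_assoc V, Matrix.mul_nonsing_inv _ hRtu, Matrix.mul_one]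
    rw [h1, hVR, ← Matrix.mul_assoc, Matrix.nonsing_inv_mul _ hRu, Matrix.one_mul,
      Matrix.transpose_mul, Matrix.transpose_transpose, Matrix.transpose_nonsing_inv,
      Matrix.transpose_transpose]
    have h3 : M = Vᵀ * (Rᵀ)⁻¹ := by
      rw [h1, hVR, ← Matrix.mul_assoc, Matrix.nonsing_inv_mul _ hRu, Matrix.one_mul]
    rw [← h3]
  have hMdet : M.det ≠ 0 := by
    have h1 : (V * Rᵀ).det ≠ 0 := by
      have e : ∀ i j, (V * Rᵀ) i j = V i ⬝ᵥ R j := fun i j => by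
        rw [Matrix.mul_apply']; rfl
      rw [Matrix.det_fin_three, e, e, e, e, e, e, e, e, e]
      have a1 : V 0 ⬝ᵥ R 0 = 0 := (hT A hA).1
      have a2 : V 1 ⬝ᵥ R 1 = 0 := (hT B hB).1
      have a3 : V 2 ⬝ᵥ R 2 = 0 := (hT C hC).1
      have b1 : V 1 ⬝ᵥ R 0 = V 0 ⬝ᵥ R 1 := hsym B A hB hA
      have b2 : V 2 ⬝ᵥ R 0 = V 0 ⬝ᵥ R 2 := hsym C A hC hA
      have b3 : V 2 ⬝ᵥ R 1 = V 1 ⬝ᵥ R 2 := hsym C B hC hB
      have c1 : V 0 ⬝ᵥ R 1 ≠ 0 := (hT A hA).2.1 B hB.1 hAB.symm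
      have c2 : V 0 ⬝ᵥ R 2 ≠ 0 := (hT A hA).2.1 C hC.1 hAC.symm
      have c3 : V 1 ⬝ᵥ R 2 ≠ 0 := (hT B hB).2.1 C hC.1 hBC.symm
      rw [a1, a2, a3, b1, b2, b3]
      have : (2 : K) * (V 0 ⬝ᵥ R 1) * (V 0 ⬝ᵥ R 2) * (V 1 ⬝ᵥ R 2) ≠ 0 :=
        mul_ne_zero (mul_ne_zero (mul_ne_zero h2 c1) c2) c3
      intro h
      apply this
      linear_combination h
    rw [hM, Matrix.det_mul]
    rw [Matrix.det_mul] at h1
    refine mul_ne_zero ?_ (left_ne_zero_of_mul h1)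
    have : R⁻¹.det * R.det = 1 := by
      rw [← Matrix.det_mul, Matrix.nonsing_inv_mul _ hRu, Matrix.det_one]
    intro h0
    rw [h0, zero_mul] at this
    exact zero_ne_one this
  have hMT : ∀ P, Good S P → M *ᵥ P.rep = T P := by
    intro P hP
    have h1 : V *ᵥ P.rep = R *ᵥ T P := by
      ext i
      change V i ⬝ᵥ P.rep = R i ⬝ᵥ T P
      rw [dotProduct_comm (R i)]
      fin_cases i
      · exact hsym A P hA hP
      · exact hsym B P hB hP
      · exact hsym C P hC hP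
    rw [hM, ← Matrix.mulVec_mulVec, h1, Matrix.mulVec_mulVec, Matrix.nonsing_inv_mul _ hRu,
      Matrix.one_mulVec]
  refine ⟨LinearMap.mk₂ K (fun x y => (M *ᵥ x) ⬝ᵥ y) ?_ ?_ ?_ ?_, ?_, ?_, ?_⟩
  · intro x x' y; rw [Matrix.mulVec_add, add_dotProduct]
  · intro c x y; rw [Matrix.mulVec_smul, smul_dotProduct]
  · intro x y y'; rw [dotProduct_add]
  · intro c x y; rw [dotProduct_smul]
  · intro x y
    simp only [LinearMap.mk₂_apply]
    rw [dotProduct_comm, Matrix.dotProduct_mulVec, ← Matrix.mulVec_transpose, hMt]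
  · intro x hx
    simp only [LinearMap.mk₂_apply] at hx
    have h1 : M *ᵥ x = 0 := dotProduct_eq_zero _ hx
    exact Matrix.eq_zero_of_mulVec_eq_zero hMdet h1
  · intro P hP
    simp only [LinearMap.mk₂_apply]
    rw [hMT P hP]
    exact hT P hP

end Run7.h255.NH
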