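import Mathlib
import Pool.Agent.Run7.h255.NH.Form

/-!
# Internal nuclei of a set of `q + 1` points: at most `(q + 1) / 2`, if the set is not an arc
-/

set_option autoImplicit false

open scoped LinearAlgebra.Projectivization
open Matrix Projectivization Finset

namespace Run7.h255.NH

variable {K : Type} [Field K] [Fintype K] [DecidableEq K]


theorem form_zero (β : (Fin 3 → K) →ₗ[K] (Fin 3 → K) →ₗ[K] K)
    (hnd : ∀ x, (∀ y, β x y = 0) → x = 0) {a b c x : Fin 3 → K} (h : D a b c ≠ 0)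
    (h1 : β x a = 0) (h2 : β x b = 0) (h3 : β x c = 0) : x = 0 := by
  apply hnd
  intro y
  have h4 := congrArg (β x) (expand a b c y)
  simp only [map_smul, map_add, smul_eq_mul, h1, h2, h3, mul_zero, add_zero] at h4
  exact (mul_eq_zero.1 h4).resolve_left h

/-- **At most half of the points of a non-arc with `q + 1` points are on no 3-secant.** -/
theorem nuclei_le {S : Finset (ℙ K (Fin 3 → K))} (hS : S.card = Fintype.card K + 1)
    (hodd : Odd (Fintype.card K)) (h2 : (2 : K) ≠ 0)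
    {p₁ p₂ p₃ : (ℙ K (Fin 3 → K))} (hp₁ : p₁ ∈ S) (hp₂ : p₂ ∈ S) (hp₃ : p₃ ∈ S) (h12 : p₁ ≠ p₂) (h13 : p₁ ≠ p₃)
    (h23 : p₂ ≠ p₃) (hcol : D p₁.rep p₂.rep p₃.rep = 0) (G : Finset (ℙ K (Fin 3 → K)))
    (hG : ∀ P, P ∈ G ↔ Good S P) (hG3 : 3 ≤ G.card) : 2 * G.card ≤ Fintype.card K + 1 := by
  classical
  obtain ⟨A, hA, B, hB, C, hC, hAB, hAC, hBC⟩ : ∃ A ∈ G, ∃ B ∈ G, ∃ C ∈ G, A ≠ B ∧ A ≠ C ∧ B ≠ C := by
    obtain ⟨A, B, C, hA, hB, hC, h⟩ := Finset.two_lt_card_iff.1 (show 2 < G.card by omega)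
    exact ⟨A, hA, B, hB, C, hC, h⟩
  obtain ⟨β, hsym, hnd, hβ⟩ := exists_bilin hS hodd h2 ((hG _).1 hA) ((hG _).1 hB) ((hG _).1 hC)
    hAB hAC hBC
  have bad : ∀ P, Good S P → P ≠ p₁ ∧ P ≠ p₂ ∧ P ≠ p₃ := by
    intro P hP
    refine ⟨?_, ?_, ?_⟩
    · rintro rfl
      exact hP.2 p₂ hp₂ p₃ hp₃ h12.symm h13.symm h23 hcol
    · rintro rfl
      refine hP.2 p₁ hp₁ p₃ hp₃ h12 h23.symm h13 ?_
      have : D P.rep p₁.rep p₃.rep = - D p₁.rep P.rep p₃.rep := by unfold D; ring
      rw [this, hcol, neg_zero]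
    · rintro rfl
      refine hP.2 p₁ hp₁ p₂ hp₂ h13 h23 h12 ?_
      have : D P.rep p₁.rep p₂.rep = D p₁.rep p₂.rep P.rep := by unfold D; ring
      rw [this, hcol]
  -- a point off the conic
  set o := A with ho_def
  have ho : Good S o := (hG _).1 hA
  obtain ⟨w, hwS, hw⟩ : ∃ w ∈ S, β w.rep w.rep ≠ 0 := by
    by_contra hcon
    push Not at hcon
    have hob := bad o ho
    have e := expand o.rep p₁.rep p₂.rep p₃.rep
    have e0 : D p₃.rep p₁.rep p₂.rep = 0 := by
      rw [← hcol]; unfold D; ring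
    rw [e0, zero_smul, zero_add] at e
    have n1 : D o.rep p₃.rep p₂.rep ≠ 0 :=
      ho.2 p₃ hp₃ p₂ hp₂ hob.2.2.symm hob.2.1.symm h23.symm
    have n2 : D o.rep p₁.rep p₃.rep ≠ 0 := ho.2 p₁ hp₁ p₃ hp₃ hob.1.symm hob.2.2.symm h13
    have n3 : D o.rep p₁.rep p₂.rep ≠ 0 := ho.2 p₁ hp₁ p₂ hp₂ hob.1.symm hob.2.1.symm h12
    have b12 : β p₁.rep p₂.rep = 0 := by
      have h5 := congrArg (fun x => β x x) e
      simp only [map_smul, map_add, LinearMap.smul_apply, LinearMap.add_apply, smul_eq_mul,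
        hcon p₁ hp₁, hcon p₂ hp₂, hcon p₃ hp₃, mul_zero, add_zero, zero_add] at h5
      rw [hsym p₂.rep p₁.rep] at h5
      have h6 : (2 : K) * D o.rep p₃.rep p₂.rep * D o.rep p₁.rep p₃.rep * β p₁.rep p₂.rep = 0 := by
        linear_combination -h5
      exact (mul_eq_zero.1 h6).resolve_left (mul_ne_zero (mul_ne_zero h2 n1) n2)
    have hb1 := (hβ o ho).2.1 p₁ hp₁ hob.1.symm
    have hb2 := (hβ o ho).2.1 p₂ hp₂ hob.2.1.symm
    have hz : β o.rep p₂.rep • p₁.rep - β o.rep p₁.rep • p₂.rep = 0 := by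
      apply form_zero β hnd n3
      · simp only [map_smul, map_sub, LinearMap.smul_apply, LinearMap.sub_apply, smul_eq_mul]
        rw [hsym p₁.rep o.rep, hsym p₂.rep o.rep]
        ring
      · simp only [map_smul, map_sub, LinearMap.smul_apply, LinearMap.sub_apply, smul_eq_mul]
        rw [hcon p₁ hp₁, hsym p₂.rep p₁.rep, b12]
        ring
      · simp only [map_smul, map_sub, LinearMap.smul_apply, LinearMap.sub_apply, smul_eq_mul]
        rw [hcon p₂ hp₂, b12]
        ring
    have h7 : D o.rep (β o.rep p₂.rep • p₁.rep - β o.rep p₁.rep • p₂.rep) p₂.rep = 0 := by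
      rw [hz]; simp [D]
    have h8 : D o.rep (β o.rep p₂.rep • p₁.rep - β o.rep p₁.rep • p₂.rep) p₂.rep =
        β o.rep p₂.rep * D o.rep p₁.rep p₂.rep := by
      simp only [D, Pi.sub_apply, Pi.smul_apply, smul_eq_mul]; ring
    rw [h8] at h7
    exact (mul_ne_zero hb2 n3) h7
  set b : K := β w.rep w.rep with hb_def
  have hwG : ∀ P, Good S P → w ≠ P := by
    intro P hP h
    rw [hb_def, h] at hw
    exact hw (hβ P hP).1
  let v : (ℙ K (Fin 3 → K)) → Fin 3 → K := fun P => b • P.rep - (2 * β P.rep w.rep) • w.rep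
  have hvv : ∀ P, Good S P → β (v P) (v P) = 0 := by
    intro P hP
    simp only [v, map_smul, map_sub, LinearMap.smul_apply, LinearMap.sub_apply, smul_eq_mul]
    rw [(hβ P hP).1, hsym w.rep P.rep, ← hb_def]
    ring
  have hPw : ∀ P, Good S P → β P.rep w.rep ≠ 0 := fun P hP => (hβ P hP).2.1 w hwS (hwG P hP)
  have hov : ∀ P, Good S P → β o.rep (v P) ≠ 0 := by
    intro P hP
    rcases eq_or_ne P o with hPo | hPo
    · rw [hPo]
      simp only [v, map_smul, map_sub, smul_eq_mul]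
      rw [(hβ o ho).1]
      have h3 := hPw o ho
      intro h
      have h4 : (2 : K) * β o.rep w.rep * β o.rep w.rep = 0 := by linear_combination -h
      exact (mul_ne_zero (mul_ne_zero h2 h3) h3) h4
    · intro h
      simp only [v, map_smul, map_sub, smul_eq_mul] at h
      have hn : D o.rep P.rep w.rep ≠ 0 := ho.2 P hP.1 w hwS hPo (hwG o ho) (hwG P hP).symm
      have hg := (hβ o ho).2.1 P hP.1 hPo
      have hz : β o.rep P.rep • w.rep - β o.rep w.rep • P.rep - β P.rep w.rep • o.rep = 0 := by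
        apply form_zero β hnd hn
        · simp only [map_smul, map_sub, LinearMap.smul_apply, LinearMap.sub_apply, smul_eq_mul]
          rw [(hβ o ho).1, hsym w.rep o.rep, hsym P.rep o.rep]
          ring
        · simp only [map_smul, map_sub, LinearMap.smul_apply, LinearMap.sub_apply, smul_eq_mul]
          rw [(hβ P hP).1, hsym w.rep P.rep]
          ring
        · simp only [map_smul, map_sub, LinearMap.smul_apply, LinearMap.sub_apply, smul_eq_mul]
          rw [← hb_def]
          linear_combination h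
      have h7 : D o.rep P.rep (β o.rep P.rep • w.rep - β o.rep w.rep • P.rep -
          β P.rep w.rep • o.rep) = 0 := by
        rw [hz]; simp [D]
      have h8 : D o.rep P.rep (β o.rep P.rep • w.rep - β o.rep w.rep • P.rep -
          β P.rep w.rep • o.rep) = β o.rep P.rep * D o.rep P.rep w.rep := by
        simp only [D, Pi.sub_apply, Pi.smul_apply, smul_eq_mul]; ring
      rw [h8] at h7
      exact (mul_ne_zero hg hn) h7
  have hex : ∀ P : (ℙ K (Fin 3 → K)), ∃ Q : (ℙ K (Fin 3 → K)), Good S P → Q ∈ S ∧ Q ≠ o ∧ D o.rep (v P) Q.rep = 0 := by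
    intro P
    by_cases hP : Good S P
    · obtain ⟨Q, h3, h4, h5⟩ := (hβ o ho).2.2 (v P) (hov P hP)
      exact ⟨Q, fun _ => ⟨h3, h4, h5⟩⟩
    · exact ⟨o, fun h => absurd h hP⟩
  choose φ hφ using hex
  -- linearity of the determinant in `v P`
  have d1 : ∀ P Q : (ℙ K (Fin 3 → K)), D o.rep (v P) Q.rep = b * D o.rep P.rep Q.rep -
      2 * β P.rep w.rep * D o.rep w.rep Q.rep := by
    intro P Q
    simp only [v, D, Pi.sub_apply, Pi.smul_apply, smul_eq_mul]; ring
  have doo : ∀ x : Fin 3 → K, D o.rep o.rep x = 0 := by intro x; unfold D; ring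
  have dxx : ∀ x y : Fin 3 → K, D x y y = 0 := by intro x y; unfold D; ring
  have dx1 : ∀ x y : Fin 3 → K, D x x y = 0 := by intro x y; unfold D; ring
  -- the case `P = o`
  have ho_case : φ o = w := by
    obtain ⟨h3, h4, h5⟩ := hφ o ho
    by_contra hne
    rw [d1, doo, mul_zero, zero_sub] at h5
    have h6 := ho.2 w hwS (φ o) h3 (hwG o ho) h4 (Ne.symm hne)
    have h7 := hPw o ho
    exact (mul_ne_zero (mul_ne_zero h2 h7) h6) (neg_eq_zero.1 h5)
  have hw_case : ∀ P, Good S P → φ P = w → P = o := by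
    intro P hP h
    by_contra hne
    obtain ⟨h3, h4, h5⟩ := hφ P hP
    rw [h, d1, dxx, mul_zero, sub_zero] at h5
    exact (mul_ne_zero hw (ho.2 P hP.1 w hwS hne (hwG o ho) (hwG P hP).symm)) h5
  -- the point `v P` on the line of `o` and `φ P`
  have hline : ∀ P, Good S P → P ≠ o →
      D o.rep (φ P).rep w.rep ≠ 0 ∧
      D o.rep (φ P).rep w.rep • v P =
        (b * D P.rep (φ P).rep w.rep) • o.rep + (b * D o.rep P.rep w.rep) • (φ P).rep := by
    intro P hP hne
    obtain ⟨h3, h4, h5⟩ := hφ P hP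
    have hQw : φ P ≠ w := fun h => hne (hw_case P hP h)
    refine ⟨ho.2 (φ P) h3 w hwS h4 (hwG o ho) hQw, ?_⟩
    have e := expand o.rep (φ P).rep w.rep (v P)
    have e1 : D (v P) (φ P).rep w.rep = b * D P.rep (φ P).rep w.rep := by
      simp only [v, D, Pi.sub_apply, Pi.smul_apply, smul_eq_mul]; ring
    have e2 : D o.rep (v P) w.rep = b * D o.rep P.rep w.rep := by
      rw [d1, dxx, mul_zero, sub_zero]
    have e3 : D o.rep (φ P).rep (v P) = 0 := by
      have : D o.rep (φ P).rep (v P) = - D o.rep (v P) (φ P).rep := by unfold D; ring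
      rw [this, h5, neg_zero]
    rw [e1, e2, e3, zero_smul, add_zero] at e
    exact e
  have hy : ∀ P, Good S P → P ≠ o → b * D o.rep P.rep w.rep ≠ 0 := fun P hP hne =>
    mul_ne_zero hw (ho.2 P hP.1 w hwS hne (hwG o ho) (hwG P hP).symm)
  have hquad : ∀ P, Good S P → P ≠ o →
      2 * (b * D P.rep (φ P).rep w.rep) * β o.rep (φ P).rep +
        (b * D o.rep P.rep w.rep) * β (φ P).rep (φ P).rep = 0 := by
    intro P hP hne
    obtain ⟨hδ, hl⟩ := hline P hP hne
    have h3 := congrArg (fun x => β x x) hl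
    simp only [map_smul, map_add, LinearMap.smul_apply, LinearMap.add_apply, smul_eq_mul,
      hvv P hP, (hβ o ho).1, mul_zero, zero_add] at h3
    rw [hsym (φ P).rep o.rep] at h3
    have h4 : (b * D o.rep P.rep w.rep) * (2 * (b * D P.rep (φ P).rep w.rep) * β o.rep (φ P).rep +
        (b * D o.rep P.rep w.rep) * β (φ P).rep (φ P).rep) = 0 := by
      linear_combination -h3
    exact (mul_eq_zero.1 h4).resolve_left (hy P hP hne)
  -- `φ P` is not good
  have hbad : ∀ P, Good S P → ¬ Good S (φ P) := by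
    intro P hP hQ
    rcases eq_or_ne P o with hPo | hPo
    · rw [hPo, ho_case] at hQ
      exact hw (hβ w hQ).1
    · obtain ⟨h3, h4, h5⟩ := hφ P hP
      have hQw : w ≠ φ P := hwG _ hQ
      rcases eq_or_ne (φ P) P with hQP | hQP
      · rw [hQP, d1, dxx, mul_zero, zero_sub] at h5
        have h6 := ho.2 w hwS P hP.1 (hwG o ho) hPo (hwG P hP)
        exact (mul_ne_zero (mul_ne_zero h2 (hPw P hP)) h6) (neg_eq_zero.1 h5)
      · have h6 := hquad P hP hPo
        rw [(hβ _ hQ).1, mul_zero, add_zero] at h6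
        have h7 := (hβ o ho).2.1 (φ P) h3 h4
        have h8 := hP.2 (φ P) h3 w hwS hQP (hwG P hP) hQw.symm
        exact (mul_ne_zero (mul_ne_zero h2 (mul_ne_zero hw h8)) h7) h6
  -- injectivity
  have hinj : Set.InjOn φ (G : Set (ℙ K (Fin 3 → K))) := by
    intro P hPG P' hPG' hPP
    have hP := (hG P).1 hPG
    have hP' := (hG P').1 hPG'
    by_contra hne
    by_cases hPo : P = o
    · subst hPo
      rw [ho_case] at hPP
      exact hne (hw_case P' hP' hPP.symm).symm
    by_cases hPo' : P' = o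
    · rw [hPo', ho_case] at hPP
      exact hPo (hw_case P hP hPP)
    obtain ⟨hδ, hl⟩ := hline P hP hPo
    obtain ⟨hδ', hl'⟩ := hline P' hP' hPo'
    have hq := hquad P hP hPo
    have hq' := hquad P' hP' hPo'
    obtain ⟨h3, h4, h5⟩ := hφ P hP
    have h7 := (hβ o ho).2.1 (φ P) h3 h4
    rw [← hPP] at hl' hq' hδ'
    set Q := φ P with hQ
    -- proportional
    have hprop : (b * D P.rep Q.rep w.rep) * (b * D o.rep P'.rep w.rep) =
        (b * D P'.rep Q.rep w.rep) * (b * D o.rep P.rep w.rep) := by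
      have h8 : (2 * β o.rep Q.rep) * ((b * D P.rep Q.rep w.rep) * (b * D o.rep P'.rep w.rep) -
          (b * D P'.rep Q.rep w.rep) * (b * D o.rep P.rep w.rep)) = 0 := by
        linear_combination (b * D o.rep P'.rep w.rep) * hq - (b * D o.rep P.rep w.rep) * hq'
      have h9 := (mul_eq_zero.1 h8).resolve_left (mul_ne_zero h2 h7)
      exact sub_eq_zero.1 h9
    have hv2 : (b * D o.rep P'.rep w.rep) • (D o.rep Q.rep w.rep • v P) =
        (b * D o.rep P.rep w.rep) • (D o.rep Q.rep w.rep • v P') := by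
      rw [hl, hl', smul_add, smul_add, smul_smul, smul_smul, smul_smul, smul_smul,
        mul_comm (b * D o.rep P'.rep w.rep) (b * D P.rep Q.rep w.rep), hprop,
        mul_comm (b * D o.rep P'.rep w.rep) (b * D o.rep P.rep w.rep),
        mul_comm (b * D P'.rep Q.rep w.rep)]
    have h10 := congrArg (fun x => D P'.rep x w.rep) hv2
    have e1 : D P'.rep ((b * D o.rep P'.rep w.rep) • (D o.rep Q.rep w.rep • v P)) w.rep =
        (b * D o.rep P'.rep w.rep) * (D o.rep Q.rep w.rep * (b * D P'.rep P.rep w.rep)) := by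
      simp only [v, D, Pi.sub_apply, Pi.smul_apply, smul_eq_mul]; ring
    have e2 : D P'.rep ((b * D o.rep P.rep w.rep) • (D o.rep Q.rep w.rep • v P')) w.rep = 0 := by
      simp only [v, D, Pi.sub_apply, Pi.smul_apply, smul_eq_mul]; ring
    simp only [e1, e2] at h10
    have h11 := hP'.2 P hP.1 w hwS hne (hwG P' hP') (hwG P hP).symm
    exact (mul_ne_zero (hy P' hP' hPo') (mul_ne_zero hδ (mul_ne_zero hw h11))) h10
  have hsub : G.image φ ⊆ S \ G := by
    intro Q hQ
    obtain ⟨P, hP, rfl⟩ := Finset.mem_image.1 hQ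
    rw [Finset.mem_sdiff]
    exact ⟨(hφ P ((hG P).1 hP)).1, fun h => hbad P ((hG P).1 hP) ((hG _).1 h)⟩
  have hc := Finset.card_le_card hsub
  have hGS : G ⊆ S := fun P hP => ((hG P).1 hP).1
  rw [Finset.card_image_of_injOn hinj, Finset.card_sdiff_of_subset hGS, hS] at hc
  have := Finset.card_le_card hGS
  omega

end Run7.h255.NH
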