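import Mathlib
import Pool.Agent.Run7.h255.NH.Nuclei

/-!
# The number of lines missing a set of `q + 1` points
-/

set_option autoImplicit false

open scoped LinearAlgebra.Projectivization
open Matrix Projectivization Finset

namespace Run7.h255.NH

variable {K : Type} [Field K] [Fintype K] [DecidableEq K]


open Classical in
/-- the number of points of `S` on the line `l` -/
noncomputable def inc (S : Finset (ℙ K (Fin 3 → K))) (l : (ℙ K (Fin 3 → K))) : ℕ := (S.filter (fun P => P.orthogonal l)).card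

open Classical in
theorem card_two {P Q : (ℙ K (Fin 3 → K))} (h : P ≠ Q) :
    (univ.filter (fun l : (ℙ K (Fin 3 → K)) => P.orthogonal l ∧ Q.orthogonal l)).card = 1 := by
  rw [Finset.card_eq_one]
  refine ⟨cross P Q, ?_⟩
  ext l
  rw [Finset.mem_filter, Finset.mem_singleton]
  constructor
  · rintro ⟨-, h1, h2⟩
    exact ((Configuration.ofField.eq_or_eq_of_orthogonal h1 h2
      (orthogonal_cross_left h) (orthogonal_cross_right h)).resolve_left h)
  · rintro rfl
    exact ⟨mem_univ _, orthogonal_cross_left h, orthogonal_cross_right h⟩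

theorem sum_inc (S : Finset (ℙ K (Fin 3 → K))) : ∑ l : (ℙ K (Fin 3 → K)), inc S l = S.card * (Fintype.card K + 1) := by
  classical
  have h1 : ∀ l : (ℙ K (Fin 3 → K)), inc S l = ∑ P ∈ S, if P.orthogonal l then 1 else 0 := fun l => by
    rw [inc, Finset.card_filter]
  rw [Finset.sum_congr rfl fun l _ => h1 l, Finset.sum_comm]
  rw [Finset.sum_congr rfl fun P _ => (Finset.card_filter (fun l : (ℙ K (Fin 3 → K)) => P.orthogonal l) univ).symm,
    Finset.sum_congr rfl fun P _ => card_lines P, Finset.sum_const, smul_eq_mul]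

theorem sum_inc_sq (S : Finset (ℙ K (Fin 3 → K))) :
    ∑ l : (ℙ K (Fin 3 → K)), inc S l * inc S l = S.card * (Fintype.card K + S.card) := by
  classical
  have h1 : ∀ l : (ℙ K (Fin 3 → K)), inc S l * inc S l =
      ∑ P ∈ S, ∑ Q ∈ S, if P.orthogonal l ∧ Q.orthogonal l then 1 else 0 := fun l => by
    rw [inc, Finset.card_filter, Finset.sum_mul_sum]
    refine Finset.sum_congr rfl fun P _ => Finset.sum_congr rfl fun Q _ => ?_
    by_cases hP : P.orthogonal l <;> by_cases hQ : Q.orthogonal l <;> simp [hP, hQ]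
  rw [Finset.sum_congr rfl fun l _ => h1 l, Finset.sum_comm]
  have h2 : ∀ P ∈ S, ∑ l : (ℙ K (Fin 3 → K)), ∑ Q ∈ S, (if P.orthogonal l ∧ Q.orthogonal l then 1 else 0) =
      Fintype.card K + S.card := by
    intro P hP
    rw [Finset.sum_comm]
    rw [Finset.sum_congr rfl fun Q _ =>
      (Finset.card_filter (fun l : (ℙ K (Fin 3 → K)) => P.orthogonal l ∧ Q.orthogonal l) univ).symm]
    rw [← Finset.add_sum_erase S _ hP]
    have h3 : (univ.filter (fun l : (ℙ K (Fin 3 → K)) => P.orthogonal l ∧ P.orthogonal l)).card =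
        Fintype.card K + 1 := by
      simp only [and_self]
      exact card_lines P
    rw [h3, Finset.sum_congr rfl fun Q hQ => card_two (Finset.mem_erase.1 hQ).1.symm,
      Finset.sum_const, smul_eq_mul, mul_one, Finset.card_erase_of_mem hP]
    have := Finset.card_pos.2 ⟨P, hP⟩
    omega
  rw [Finset.sum_congr rfl h2, Finset.sum_const, smul_eq_mul]

/-- the main identity -/
theorem sum_quad {S : Finset (ℙ K (Fin 3 → K))} (hS : S.card = Fintype.card K + 1) :
    ∑ l : (ℙ K (Fin 3 → K)), ((inc S l : ℤ) - 1) * ((inc S l : ℤ) - 2) =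
      (Fintype.card K : ℤ) * ((Fintype.card K : ℤ) - 1) := by
  have h1 : ∀ l : (ℙ K (Fin 3 → K)), ((inc S l : ℤ) - 1) * ((inc S l : ℤ) - 2) =
      ((inc S l * inc S l : ℕ) : ℤ) - 3 * ((inc S l : ℕ) : ℤ) + 2 := fun l => by push_cast; ring
  rw [Finset.sum_congr rfl fun l _ => h1 l, Finset.sum_add_distrib, Finset.sum_sub_distrib,
    ← Finset.mul_sum, ← Nat.cast_sum, ← Nat.cast_sum, sum_inc, sum_inc_sq, Finset.sum_const,
    Finset.card_univ, card_plane, hS]
  push_cast
  ring

/-- the number of lines which miss `S` -/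
noncomputable def missing (S : Finset (ℙ K (Fin 3 → K))) : ℕ := {l : (ℙ K (Fin 3 → K)) | ∀ P ∈ S, ¬ P.orthogonal l}.ncard

theorem missing_eq (S : Finset (ℙ K (Fin 3 → K))) :
    (missing S : ℤ) = ∑ l : (ℙ K (Fin 3 → K)), if inc S l = 0 then 1 else 0 := by
  classical
  have h1 : {l : (ℙ K (Fin 3 → K)) | ∀ P ∈ S, ¬ P.orthogonal l} =
      ((univ.filter (fun l : (ℙ K (Fin 3 → K)) => inc S l = 0) : Finset (ℙ K (Fin 3 → K))) : Set (ℙ K (Fin 3 → K))) := by
    ext l
    simp only [Set.mem_ofPred_eq, Finset.coe_filter, Finset.mem_univ, true_and, inc,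
      Finset.card_eq_zero, Finset.filter_eq_empty_iff]
  rw [missing, h1, Set.ncard_coe_finset, Finset.card_filter]
  push_cast
  rfl

theorem exists_three {S : Finset (ℙ K (Fin 3 → K))} (hS : S.card = Fintype.card K + 1)
    (h : 2 * missing S < Fintype.card K * (Fintype.card K - 1)) :
    ∃ p₁ ∈ S, ∃ p₂ ∈ S, ∃ p₃ ∈ S, p₁ ≠ p₂ ∧ p₁ ≠ p₃ ∧ p₂ ≠ p₃ ∧
      D p₁.rep p₂.rep p₃.rep = 0 := by
  classical
  have hK : 1 ≤ Fintype.card K := Fintype.card_pos
  obtain ⟨l, hl⟩ : ∃ l : (ℙ K (Fin 3 → K)), 3 ≤ inc S l := by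
    by_contra hcon
    push Not at hcon
    have h1 : ∀ l : (ℙ K (Fin 3 → K)), ((inc S l : ℤ) - 1) * ((inc S l : ℤ) - 2) =
        2 * (if inc S l = 0 then 1 else 0) := by
      intro l
      have h2 := hcon l
      interval_cases h3 : inc S l <;> simp
    have h2 := sum_quad hS
    rw [Finset.sum_congr rfl fun l _ => h1 l, ← Finset.mul_sum, ← missing_eq] at h2
    zify [hK] at h
    linarith
  obtain ⟨p₁, p₂, p₃, h1, h2, h3, h12, h13, h23⟩ := Finset.two_lt_card_iff.1
    (show 2 < (S.filter (fun P => P.orthogonal l)).card from hl)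
  rw [Finset.mem_filter] at h1 h2 h3
  refine ⟨p₁, h1.1, p₂, h2.1, p₃, h3.1, h12, h13, h23, ?_⟩
  have h4 := (Configuration.ofField.eq_or_eq_of_orthogonal h2.2 h3.2
      (orthogonal_cross_left h23) (orthogonal_cross_right h23)).resolve_left h23
  rw [← orth_cross p₁ p₂ p₃ h23, ← h4]
  exact h1.2

/-- **The upper bound.** -/
theorem upper {S : Finset (ℙ K (Fin 3 → K))} (hS : S.card = Fintype.card K + 1) (hodd : Odd (Fintype.card K))
    (h2 : (2 : K) ≠ 0) (h3 : 3 ≤ Fintype.card K)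
    (h : 2 * missing S < Fintype.card K * (Fintype.card K - 1)) :
    6 * missing S + (Fintype.card K + 1) ≤ 3 * (Fintype.card K * (Fintype.card K - 1)) := by
  classical
  obtain ⟨p₁, hp₁, p₂, hp₂, p₃, hp₃, h12, h13, h23, hcol⟩ := exists_three hS h
  set G : Finset (ℙ K (Fin 3 → K)) := S.filter (fun P => Good S P) with hG
  have hGm : ∀ P, P ∈ G ↔ Good S P := by
    intro P
    rw [hG, Finset.mem_filter]
    exact ⟨fun h => h.2, fun h => ⟨h.1, h⟩⟩
  have hGc : 2 * G.card ≤ Fintype.card K + 1 := by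
    by_cases h3 : 3 ≤ G.card
    · exact nuclei_le hS hodd h2 hp₁ hp₂ hp₃ h12 h13 h23 hcol G hGm h3
    · omega
  -- each point which is not good is on a line with three points
  have hbad : ∀ P ∈ S \ G, 1 ≤ (univ.filter (fun l : (ℙ K (Fin 3 → K)) => P.orthogonal l ∧ 3 ≤ inc S l)).card := by
    intro P hP
    rw [Finset.mem_sdiff, hGm] at hP
    have h4 : ¬ ∀ Q ∈ S, ∀ R ∈ S, Q ≠ P → R ≠ P → Q ≠ R → D P.rep Q.rep R.rep ≠ 0 :=
      fun h5 => hP.2 ⟨hP.1, h5⟩
    push Not at h4
    obtain ⟨Q, hQ, R, hR, hQP, hRP, hQR, h5⟩ := h4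
    rw [← orth_cross P Q R hQR] at h5
    rw [Nat.one_le_iff_ne_zero, Finset.card_ne_zero]
    refine ⟨cross Q R, ?_⟩
    rw [Finset.mem_filter]
    refine ⟨mem_univ _, h5, ?_⟩
    have h6 : ({P, Q, R} : Finset (ℙ K (Fin 3 → K))) ⊆ S.filter (fun X => X.orthogonal (cross Q R)) := by
      intro X hX
      simp only [Finset.mem_insert, Finset.mem_singleton] at hX
      rw [Finset.mem_filter]
      rcases hX with rfl | rfl | rfl
      · exact ⟨hP.1, h5⟩
      · exact ⟨hQ, orthogonal_cross_left hQR⟩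
      · exact ⟨hR, orthogonal_cross_right hQR⟩
    have h7 := Finset.card_le_card h6
    rwa [Finset.card_eq_three.2 ⟨P, Q, R, hQP.symm, hRP.symm, hQR, rfl⟩] at h7
  have hsum : (S \ G).card ≤ ∑ l : (ℙ K (Fin 3 → K)), if 3 ≤ inc S l then inc S l else 0 := by
    calc (S \ G).card = ∑ P ∈ S \ G, 1 := by simp
      _ ≤ ∑ P ∈ S \ G, (univ.filter (fun l : (ℙ K (Fin 3 → K)) => P.orthogonal l ∧ 3 ≤ inc S l)).card :=
          Finset.sum_le_sum hbad
      _ ≤ ∑ P ∈ S, (univ.filter (fun l : (ℙ K (Fin 3 → K)) => P.orthogonal l ∧ 3 ≤ inc S l)).card :=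
          Finset.sum_le_sum_of_subset Finset.sdiff_subset
      _ = ∑ P ∈ S, ∑ l : (ℙ K (Fin 3 → K)), if P.orthogonal l ∧ 3 ≤ inc S l then 1 else 0 :=
          Finset.sum_congr rfl fun P _ => Finset.card_filter _ _
      _ = ∑ l : (ℙ K (Fin 3 → K)), ∑ P ∈ S, if P.orthogonal l ∧ 3 ≤ inc S l then 1 else 0 := Finset.sum_comm
      _ = ∑ l : (ℙ K (Fin 3 → K)), if 3 ≤ inc S l then inc S l else 0 := by
          refine Finset.sum_congr rfl fun l _ => ?_
          by_cases h4 : 3 ≤ inc S l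
          · simp only [h4, and_true, if_true]
            rw [← Finset.card_filter]
            rfl
          · simp only [h4, and_false, if_false, Finset.sum_const_zero]
  have hpt : ∀ l : (ℙ K (Fin 3 → K)), 6 * (if inc S l = 0 then (1 : ℤ) else 0) +
      2 * ((if 3 ≤ inc S l then inc S l else 0 : ℕ) : ℤ) ≤
        3 * (((inc S l : ℤ) - 1) * ((inc S l : ℤ) - 2)) := by
    intro l
    rcases Nat.lt_or_ge (inc S l) 3 with h4 | h4
    · interval_cases h5 : inc S l <;> simp
    · rw [if_neg (by omega), if_pos h4]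
      have h5 : (3 : ℤ) ≤ (inc S l : ℤ) := by exact_mod_cast h4
      nlinarith
  have htot := Finset.sum_le_sum (s := (univ : Finset (ℙ K (Fin 3 → K)))) fun l _ => hpt l
  rw [Finset.sum_add_distrib, ← Finset.mul_sum, ← Finset.mul_sum, ← Finset.mul_sum, sum_quad hS,
    ← missing_eq, ← Nat.cast_sum] at htot
  have hGS : G ⊆ S := Finset.filter_subset _ _
  have h8 : (S \ G).card + G.card = Fintype.card K + 1 := by
    rw [Finset.card_sdiff_of_subset hGS, hS]
    have := Finset.card_le_card hGS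
    omega
  have hK : 1 ≤ Fintype.card K := by omega
  generalize (∑ x : (ℙ K (Fin 3 → K)), if 3 ≤ inc S x then inc S x else 0) = X at hsum htot
  zify [hK] at hsum h8 hGc ⊢
  linarith

end Run7.h255.NH
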