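import Mathlib
import Pool.Agent.Run7.h255.NH.Sum

/-!
# The conic with one point replaced by an external point
-/

set_option autoImplicit false

open scoped LinearAlgebra.Projectivization
open Matrix Projectivization Finset

namespace Run7.h255.NH

variable {K : Type} [Field K] [Fintype K] [DecidableEq K]


/-- the affine points of the parabola, and the point `(0, -1)` -/
def vec (a : Option K) : Fin 3 → K :=
  match a with
  | none => ![0, -1, 1]
  | some x => ![x, x ^ 2, 1]

omit [Fintype K] [DecidableEq K] in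
theorem vec_ne (a : Option K) : vec a ≠ 0 := by
  intro h
  have h1 := congrFun h 2
  cases a <;> simp [vec] at h1

/-- the points -/
noncomputable def pt (a : Option K) : (ℙ K (Fin 3 → K)) := Projectivization.mk K (vec a) (vec_ne a)

omit [Fintype K] [DecidableEq K] in
theorem pt_inj : Function.Injective (pt (K := K)) := by
  intro a b h
  rw [pt, pt, mk_eq_mk_iff_crossProduct_eq_zero] at h
  have h0 := congrFun h 0
  have h1 := congrFun h 1
  rcases a with _ | x <;> rcases b with _ | y
  · rfl
  · simp [vec, crossProduct] at h0 h1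
    rw [h1] at h0
    simp at h0
  · simp [vec, crossProduct] at h0 h1
    rw [h1] at h0
    simp at h0
  · simp [vec, crossProduct] at h0 h1
    congr 1
    linear_combination -h1

/-- the set -/
noncomputable def ex : Finset (ℙ K (Fin 3 → K)) := univ.image pt

theorem ex_card : (ex : Finset (ℙ K (Fin 3 → K))).card = Fintype.card K + 1 := by
  rw [ex, Finset.card_image_of_injective _ pt_inj, Finset.card_univ, Fintype.card_option]

omit [Fintype K] [DecidableEq K] in
theorem pt_orth (a : Option K) (l : (ℙ K (Fin 3 → K))) : (pt a).orthogonal l ↔ vec a ⬝ᵥ l.rep = 0 := by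
  have h := orthogonal_mk (F := K) (vec_ne a) l.rep_nonzero
  rw [mk_rep] at h
  exact h

open Classical in
theorem inc_ex (l : (ℙ K (Fin 3 → K))) : inc (ex : Finset (ℙ K (Fin 3 → K))) l =
    (univ.filter (fun a : Option K => vec a ⬝ᵥ l.rep = 0)).card := by
  rw [inc, ex, Finset.filter_image, Finset.card_image_of_injective _ pt_inj]
  congr 1
  ext a
  simp only [Finset.mem_filter, pt_orth]

omit [Fintype K] [DecidableEq K] in
theorem dot_none (r : Fin 3 → K) : vec none ⬝ᵥ r = r 2 - r 1 := by
  simp [vec, dotProduct, Fin.sum_univ_three]; ring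

omit [Fintype K] [DecidableEq K] in
theorem dot_some (x : K) (r : Fin 3 → K) : vec (some x) ⬝ᵥ r = x * r 0 + x ^ 2 * r 1 + r 2 := by
  simp [vec, dotProduct, Fin.sum_univ_three]

omit [Fintype K] [DecidableEq K] in
theorem vec3_ne {r : Fin 3 → K} (h : r ≠ 0) (h0 : r 0 = 0) (h1 : r 1 = 0) (h2 : r 2 = 0) :
    False := by
  apply h
  ext i
  fin_cases i
  · exact h0
  · exact h1
  · exact h2

/-- the parameters of the points of the parabola on the line -/
noncomputable def par (l : (ℙ K (Fin 3 → K))) : Finset K := univ.filter (fun x : K => vec (some x) ⬝ᵥ l.rep = 0)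

theorem par_le (l : (ℙ K (Fin 3 → K))) : (par l).card ≤ 2 := by
  by_contra hcon
  push Not at hcon
  obtain ⟨x, y, z, hx, hy, hz, hxy, hxz, hyz⟩ := Finset.two_lt_card_iff.1 hcon
  simp only [par, Finset.mem_filter, Finset.mem_univ, true_and, dot_some] at hx hy hz
  have e1 : l.rep 0 + (x + y) * l.rep 1 = 0 := by
    have h : (x - y) * (l.rep 0 + (x + y) * l.rep 1) = 0 := by linear_combination hx - hy
    exact (mul_eq_zero.1 h).resolve_left (sub_ne_zero.2 hxy)
  have e2 : l.rep 0 + (x + z) * l.rep 1 = 0 := by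
    have h : (x - z) * (l.rep 0 + (x + z) * l.rep 1) = 0 := by linear_combination hx - hz
    exact (mul_eq_zero.1 h).resolve_left (sub_ne_zero.2 hxz)
  have e3 : l.rep 1 = 0 := by
    have h : (y - z) * l.rep 1 = 0 := by linear_combination e1 - e2
    exact (mul_eq_zero.1 h).resolve_left (sub_ne_zero.2 hyz)
  have e4 : l.rep 0 = 0 := by rw [e3, mul_zero, add_zero] at e1; exact e1
  have e5 : l.rep 2 = 0 := by rw [e3, e4] at hx; simpa using hx
  exact vec3_ne l.rep_nonzero e4 e3 e5

theorem inc_eq (l : (ℙ K (Fin 3 → K))) : inc (ex : Finset (ℙ K (Fin 3 → K))) l =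
    (par l).card + if vec none ⬝ᵥ l.rep = 0 then 1 else 0 := by
  classical
  rw [inc_ex, Finset.card_filter, Fintype.sum_option, par, Finset.card_filter, add_comm]

theorem inc_three {l : (ℙ K (Fin 3 → K))} (h : 3 ≤ inc (ex : Finset (ℙ K (Fin 3 → K))) l) :
    inc (ex : Finset (ℙ K (Fin 3 → K))) l = 3 ∧ (par l).card = 2 ∧ vec none ⬝ᵥ l.rep = 0 := by
  have h1 := par_le l
  rw [inc_eq] at h ⊢
  split_ifs at h ⊢ with h2
  · exact ⟨by omega, by omega, h2⟩
  · omega

theorem par_mem {l : (ℙ K (Fin 3 → K))} (h : 3 ≤ inc (ex : Finset (ℙ K (Fin 3 → K))) l) {x : K} (hx : x ∈ par l) :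
    x ≠ 0 ∧ x ≠ 1 ∧ x ≠ -1 := by
  obtain ⟨-, h2, h3⟩ := inc_three h
  obtain ⟨y, hy, hne⟩ := Finset.exists_mem_ne (show 1 < (par l).card by omega) x
  simp only [par, Finset.mem_filter, Finset.mem_univ, true_and, dot_some] at hx hy
  rw [dot_none] at h3
  have e : l.rep 1 * ((y - x) * (x * y - 1)) = 0 := by
    linear_combination x * hy - y * hx + (y - x) * h3
  rcases mul_eq_zero.1 e with h4 | h4
  · exfalso
    have h5 : l.rep 2 = 0 := by rw [h4] at h3; simpa using h3
    have h6 : (y - x) * l.rep 0 = 0 := by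
      rw [h4, h5] at hx hy
      linear_combination hy - hx
    exact vec3_ne l.rep_nonzero ((mul_eq_zero.1 h6).resolve_left (sub_ne_zero.2 hne)) h4 h5
  · have h5 : x * y = 1 := sub_eq_zero.1 ((mul_eq_zero.1 h4).resolve_left (sub_ne_zero.2 hne))
    refine ⟨?_, ?_, ?_⟩
    · rintro rfl
      simp at h5
    · rintro rfl
      rw [one_mul] at h5
      exact hne h5
    · rintro rfl
      apply hne
      linear_combination -h5

theorem three_le (h2 : (2 : K) ≠ 0) :
    2 * ∑ l : (ℙ K (Fin 3 → K)), (if 3 ≤ inc (ex : Finset (ℙ K (Fin 3 → K))) l then 1 else 0) + 3 ≤ Fintype.card K := by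
  classical
  have h1 : 2 * ∑ l : (ℙ K (Fin 3 → K)), (if 3 ≤ inc (ex : Finset (ℙ K (Fin 3 → K))) l then 1 else 0) ≤
      ∑ x : K, if x ≠ 0 ∧ x ≠ 1 ∧ x ≠ -1 then 1 else 0 := by
    calc 2 * ∑ l : (ℙ K (Fin 3 → K)), (if 3 ≤ inc (ex : Finset (ℙ K (Fin 3 → K))) l then 1 else 0)
        = ∑ l : (ℙ K (Fin 3 → K)), ∑ x : K, (if 3 ≤ inc (ex : Finset (ℙ K (Fin 3 → K))) l ∧ x ∈ par l then 1 else 0) := by
          rw [Finset.mul_sum]
          refine Finset.sum_congr rfl fun l _ => ?_
          by_cases h : 3 ≤ inc (ex : Finset (ℙ K (Fin 3 → K))) l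
          · simp only [h, true_and, if_true]
            rw [← Finset.card_filter, Finset.filter_mem_eq_inter, Finset.univ_inter,
              (inc_three h).2.1]
            norm_num
          · simp [h]
      _ = ∑ x : K, ∑ l : (ℙ K (Fin 3 → K)), (if 3 ≤ inc (ex : Finset (ℙ K (Fin 3 → K))) l ∧ x ∈ par l then 1 else 0) :=
          Finset.sum_comm
      _ ≤ _ := by
          refine Finset.sum_le_sum fun x _ => ?_
          by_cases hx : x ≠ 0 ∧ x ≠ 1 ∧ x ≠ -1
          · rw [if_pos hx, ← Finset.card_filter]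
            have hne : pt (none : Option K) ≠ pt (some x) := fun h => by
              have := pt_inj h
              simp at this
            rw [← card_two hne]
            refine Finset.card_le_card fun l hl => ?_
            rw [Finset.mem_filter] at hl ⊢
            refine ⟨mem_univ _, (pt_orth _ _).2 (inc_three hl.2.1).2.2, (pt_orth _ _).2 ?_⟩
            exact (Finset.mem_filter.1 hl.2.2).2
          · rw [if_neg hx, Finset.sum_eq_zero]
            intro l _
            rw [if_neg]
            rintro ⟨h3, h4⟩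
            exact hx (par_mem h3 h4)
  rw [show (∑ x : K, if x ≠ 0 ∧ x ≠ 1 ∧ x ≠ -1 then 1 else 0) =
    (univ.filter (fun x : K => x ≠ 0 ∧ x ≠ 1 ∧ x ≠ -1)).card from
      (Finset.card_filter _ _).symm] at h1
  have h3 : (univ.filter (fun x : K => x ≠ 0 ∧ x ≠ 1 ∧ x ≠ -1)) = univ \ {0, 1, -1} := by
    ext x
    simp
  have hm : (-1 : K) ≠ 1 := by
    intro h
    apply h2
    linear_combination -h
  have h4 : ({0, 1, -1} : Finset K).card = 3 := by
    rw [Finset.card_eq_three]
    exact ⟨0, 1, -1, zero_ne_one, (neg_ne_zero.2 one_ne_zero).symm, hm.symm, rfl⟩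
  rw [h3, Finset.card_sdiff_of_subset (Finset.subset_univ _), Finset.card_univ, h4] at h1
  have h5 := Finset.card_le_univ ({0, 1, -1} : Finset K)
  rw [h4] at h5
  omega

theorem three_pos (h2 : (2 : K) ≠ 0) (hq : 4 ≤ Fintype.card K) :
    0 < ∑ l : (ℙ K (Fin 3 → K)), (if 3 ≤ inc (ex : Finset (ℙ K (Fin 3 → K))) l then 1 else 0) := by
  classical
  obtain ⟨x, hx⟩ : ∃ x : K, x ∉ ({0, 1, -1} : Finset K) := by
    by_contra hcon
    push Not at hcon
    have h := Finset.card_le_card (show (univ : Finset K) ⊆ {0, 1, -1} from fun x _ => hcon x)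
    rw [Finset.card_univ] at h
    have h' := Finset.card_le_three (a := (0 : K)) (b := 1) (c := -1)
    omega
  simp only [Finset.mem_insert, Finset.mem_singleton, not_or] at hx
  obtain ⟨hx0, hx1, hx2⟩ := hx
  have hr : (![x + x⁻¹, -1, -1] : Fin 3 → K) ≠ 0 := by
    intro h
    have := congrFun h 1
    simp at this
  set l : (ℙ K (Fin 3 → K)) := Projectivization.mk K _ hr with hl
  have hmem : ∀ a : Option K, (pt a).orthogonal l ↔ vec a ⬝ᵥ ![x + x⁻¹, -1, -1] = 0 := fun a =>
    orthogonal_mk (F := K) (vec_ne a) hr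
  have hne : x ≠ x⁻¹ := by
    intro h
    have h3 : x * x = 1 := by
      nth_rewrite 2 [h]
      exact mul_inv_cancel₀ hx0
    have h4 : (x - 1) * (x + 1) = 0 := by linear_combination h3
    rcases mul_eq_zero.1 h4 with h5 | h5
    · exact hx1 (sub_eq_zero.1 h5)
    · exact hx2 (eq_neg_of_add_eq_zero_left h5)
  have h3 : 3 ≤ inc (ex : Finset (ℙ K (Fin 3 → K))) l := by
    have h6 : ({pt none, pt (some x), pt (some x⁻¹)} : Finset (ℙ K (Fin 3 → K))) ⊆
        ex.filter (fun P => P.orthogonal l) := by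
      intro P hP
      simp only [Finset.mem_insert, Finset.mem_singleton] at hP
      rw [Finset.mem_filter]
      rcases hP with rfl | rfl | rfl
      · refine ⟨Finset.mem_image_of_mem _ (mem_univ _), (hmem _).2 ?_⟩
        rw [dot_none]; simp
      · refine ⟨Finset.mem_image_of_mem _ (mem_univ _), (hmem _).2 ?_⟩
        rw [dot_some]
        simp
        field_simp
        ring
      · refine ⟨Finset.mem_image_of_mem _ (mem_univ _), (hmem _).2 ?_⟩
        rw [dot_some]
        simp
        field_simp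
        ring
    have h7 := Finset.card_le_card h6
    rw [Finset.card_eq_three.2 ⟨pt none, pt (some x), pt (some x⁻¹),
      fun h => by simpa using pt_inj h, fun h => by simpa using pt_inj h,
      fun h => hne (by simpa using pt_inj h), rfl⟩] at h7
    rw [inc]
    convert h7
  refine Finset.sum_pos' (fun _ _ => Nat.zero_le _) ⟨l, mem_univ _, ?_⟩
  rw [if_pos h3]
  exact one_pos

/-- **The example.** -/
theorem example_bound (h2 : (2 : K) ≠ 0) (hq : 4 ≤ Fintype.card K) :
    2 * missing (ex : Finset (ℙ K (Fin 3 → K))) < Fintype.card K * (Fintype.card K - 1) ∧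
      (Fintype.card K - 1) ^ 2 + 2 ≤ 2 * missing (ex : Finset (ℙ K (Fin 3 → K))) := by
  have h1 : ∀ l : (ℙ K (Fin 3 → K)), ((inc (ex : Finset (ℙ K (Fin 3 → K))) l : ℤ) - 1) * ((inc (ex : Finset (ℙ K (Fin 3 → K))) l : ℤ) - 2) =
      2 * (if inc (ex : Finset (ℙ K (Fin 3 → K))) l = 0 then 1 else 0) +
        2 * ((if 3 ≤ inc (ex : Finset (ℙ K (Fin 3 → K))) l then 1 else 0 : ℕ) : ℤ) := by
    intro l
    rcases Nat.lt_or_ge (inc (ex : Finset (ℙ K (Fin 3 → K))) l) 3 with h4 | h4
    · interval_cases h5 : inc (ex : Finset (ℙ K (Fin 3 → K))) l <;> simp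
    · rw [(inc_three h4).1]
      norm_num
  have h3 := sum_quad (K := K) ex_card
  rw [Finset.sum_congr rfl fun l _ => h1 l, Finset.sum_add_distrib, ← Finset.mul_sum,
    ← Finset.mul_sum, ← missing_eq, ← Nat.cast_sum] at h3
  have h4 := three_le h2
  have h5 := three_pos h2 hq
  generalize (∑ l : (ℙ K (Fin 3 → K)), if 3 ≤ inc (ex : Finset (ℙ K (Fin 3 → K))) l then 1 else 0) = X at h3 h4 h5
  have hK : 1 ≤ Fintype.card K := by omega
  constructor
  · zify [hK] at h5 ⊢
    linarith
  · zify [hK] at h4 ⊢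
    nlinarith

end Run7.h255.NH
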