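import Mathlib
import Pool.Agent.Run7.h255.NH.Nuclei

/-!
# Points with exactly two tangents
-/

set_option autoImplicit false

open scoped LinearAlgebra.Projectivization
open Matrix Projectivization Finset

namespace Run7.h255.NH

variable {K : Type} [Field K] [Fintype K] [DecidableEq K]

theorem exists_two {S : Finset (ℙ K (Fin 3 → K))} (hS : S.card = Fintype.card K + 1)
    {k k₁ k₂ : ℙ K (Fin 3 → K)} (hk : k ∈ S) (hk₁ : k₁ ∈ S) (hk₂ : k₂ ∈ S) (h1 : k₁ ≠ k)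
    (h2 : k₂ ≠ k) (h12 : k₁ ≠ k₂) (hcol : D k.rep k₁.rep k₂.rep = 0)
    (hu : ∀ Q ∈ S, ∀ R ∈ S, Q ≠ k → R ≠ k → Q ≠ R → D k.rep Q.rep R.rep = 0 →
      (Q = k₁ ∧ R = k₂) ∨ (Q = k₂ ∧ R = k₁)) :
    ∃ t₁ t₂ : ℙ K (Fin 3 → K), t₁ ≠ t₂ ∧ k.orthogonal t₁ ∧ k.orthogonal t₂ ∧
      ∀ Q ∈ S, Q ≠ k → ¬ Q.orthogonal t₁ ∧ ¬ Q.orthogonal t₂ := by
  classical
  set I := ((S.erase k).erase k₂).image (fun Q => cross k Q) with hI
  have hk₂' : k₂ ∈ S.erase k := Finset.mem_erase.2 ⟨h2, hk₂⟩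
  have hm : ∀ Q, Q ∈ ((S.erase k).erase k₂) → Q ∈ S ∧ Q ≠ k ∧ Q ≠ k₂ := by
    intro Q hQ
    simp only [Finset.mem_erase] at hQ
    exact ⟨hQ.2.2, hQ.2.1, hQ.1⟩
  have hinj : Set.InjOn (fun Q => cross k Q) ((S.erase k).erase k₂ : Finset (ℙ K (Fin 3 → K))) := by
    intro Q hQ R hR h
    by_contra hne
    have hQ' := hm Q (Finset.mem_coe.1 hQ)
    have hR' := hm R (Finset.mem_coe.1 hR)
    have h3 : R.orthogonal (cross k Q) := by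
      have h4 : cross k Q = cross k R := h
      rw [h4]
      exact orthogonal_cross_right hR'.2.1.symm
    rw [orth_cross R k Q hQ'.2.1.symm] at h3
    have h4 : D k.rep Q.rep R.rep = 0 := by rw [← h3]; unfold D; ring
    rcases hu Q hQ'.1 R hR'.1 hQ'.2.1 hR'.2.1 hne h4 with h5 | h5
    · exact hR'.2.2 h5.2
    · exact hQ'.2.2 h5.1
  have hcard : I.card = Fintype.card K - 1 := by
    rw [hI, Finset.card_image_of_injOn hinj, Finset.card_erase_of_mem hk₂',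
      Finset.card_erase_of_mem hk, hS]
    simp
  have hsub : I ⊆ univ.filter (fun l : ℙ K (Fin 3 → K) => k.orthogonal l) := by
    intro l hl
    obtain ⟨Q, hQ, rfl⟩ := Finset.mem_image.1 hl
    rw [Finset.mem_filter]
    exact ⟨mem_univ _, orthogonal_cross_left (hm Q hQ).2.1.symm⟩
  have hK : 1 ≤ Fintype.card K := Fintype.card_pos
  have hd : (univ.filter (fun l : ℙ K (Fin 3 → K) => k.orthogonal l) \ I).card = 2 := by
    rw [Finset.card_sdiff_of_subset hsub, card_lines, hcard]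
    omega
  obtain ⟨t₁, t₂, ht, he⟩ := Finset.card_eq_two.1 hd
  have hall : ∀ t ∈ univ.filter (fun l : ℙ K (Fin 3 → K) => k.orthogonal l) \ I,
      k.orthogonal t ∧ ∀ Q ∈ S, Q ≠ k → ¬ Q.orthogonal t := by
    intro t ht'
    rw [Finset.mem_sdiff, Finset.mem_filter] at ht'
    refine ⟨ht'.1.2, fun Q hQ hne hQt => ht'.2 ?_⟩
    have h3 : cross k Q = t := (Configuration.ofField.eq_or_eq_of_orthogonal
      (orthogonal_cross_left (v := k) (w := Q) hne.symm) (orthogonal_cross_right hne.symm)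
      ht'.1.2 hQt).resolve_left hne.symm
    rw [hI, Finset.mem_image]
    by_cases hQ2 : Q = k₂
    · refine ⟨k₁, Finset.mem_erase.2 ⟨h12, Finset.mem_erase.2 ⟨h1, hk₁⟩⟩, ?_⟩
      have h4 : k₂.orthogonal (cross k k₁) := by
        rw [orth_cross k₂ k k₁ h1.symm, ← hcol]
        unfold D; ring
      rw [← h3, hQ2]
      exact (Configuration.ofField.eq_or_eq_of_orthogonal
        (orthogonal_cross_left (v := k) (w := k₁) h1.symm) h4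
        (orthogonal_cross_left (v := k) (w := k₂) h2.symm)
        (orthogonal_cross_right h2.symm)).resolve_left h2.symm
    · exact ⟨Q, Finset.mem_erase.2 ⟨hQ2, Finset.mem_erase.2 ⟨hne, hQ⟩⟩, h3⟩
  have a1 := hall t₁ (by rw [he]; simp)
  have a2 := hall t₂ (by rw [he]; simp)
  exact ⟨t₁, t₂, ht, a1.1, a2.1, fun Q hQ hne => ⟨a1.2 Q hQ hne, a2.2 Q hQ hne⟩⟩

/-- the product over the lines through a point with two tangents -/
theorem seg2 {ι : Type} [DecidableEq ι] (S : Finset ι)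
    (hcard : S.card + 3 = Fintype.card K) (u : ι → Fin 3 → K) (k i j t t' : Fin 3 → K)
    (htk : t ⬝ᵥ k = 0) (hti : t ⬝ᵥ i ≠ 0) (htj : t ⬝ᵥ j ≠ 0) (htS : ∀ l ∈ S, t ⬝ᵥ u l ≠ 0)
    (htk' : t' ⬝ᵥ k = 0) (hti' : t' ⬝ᵥ i ≠ 0) (htj' : t' ⬝ᵥ j ≠ 0)
    (htS' : ∀ l ∈ S, t' ⬝ᵥ u l ≠ 0)
    (hne : (t ⬝ᵥ j) * (t' ⬝ᵥ i) ≠ (t' ⬝ᵥ j) * (t ⬝ᵥ i))
    (hkij : D k i j ≠ 0) (hi : ∀ l ∈ S, D k (u l) i ≠ 0) (hj : ∀ l ∈ S, D k (u l) j ≠ 0)
    (hS : ∀ l ∈ S, ∀ m ∈ S, l ≠ m → D k (u l) (u m) ≠ 0) :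
    (t ⬝ᵥ j) * (t' ⬝ᵥ j) * ∏ l ∈ S, D k (u l) j =
      - ((t ⬝ᵥ i) * (t' ⬝ᵥ i) * ∏ l ∈ S, D k (u l) i) := by
  classical
  have hkji : D k j i ≠ 0 := by
    intro h
    apply hkij
    have : D k i j = - D k j i := by unfold D; ring
    rw [this, h, neg_zero]
  let r : ι → Kˣ := fun l => if h : D k (u l) j ≠ 0 ∧ D k (u l) i ≠ 0 then
    Units.mk0 (D k (u l) j / D k (u l) i) (div_ne_zero h.1 h.2) else 1
  have hr : ∀ l ∈ S, ((r l : Kˣ) : K) = D k (u l) j / D k (u l) i := by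
    intro l hl
    simp only [r]
    rw [dif_pos ⟨hj l hl, hi l hl⟩]
    rfl
  let r0 : Kˣ := Units.mk0 ((t ⬝ᵥ j) / (t ⬝ᵥ i)) (div_ne_zero htj hti)
  let r1 : Kˣ := Units.mk0 ((t' ⬝ᵥ j) / (t' ⬝ᵥ i)) (div_ne_zero htj' hti')
  have hinj : Set.InjOn r S := by
    intro l hl m hm h
    by_contra hne
    have h1 : D k (u l) j / D k (u l) i = D k (u m) j / D k (u m) i := by
      rw [← hr l hl, ← hr m hm, h]
    rw [div_eq_div_iff (hi l hl) (hi m hm)] at h1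
    have h2 := pluck k (u l) (u m) i j
    rw [h1] at h2
    have h3 : D k (u l) (u m) * D k j i = 0 := by rw [← h2]; ring
    exact (mul_ne_zero (hS l hl m hm hne) hkji) h3
  have gen : ∀ s : Fin 3 → K, s ⬝ᵥ k = 0 → s ⬝ᵥ i ≠ 0 → (∀ l ∈ S, s ⬝ᵥ u l ≠ 0) →
      ∀ l ∈ S, D k (u l) j / D k (u l) i ≠ (s ⬝ᵥ j) / (s ⬝ᵥ i) := by
    intro s hs0 hs1 hs2 l hl h1
    rw [div_eq_div_iff (hi l hl) hs1] at h1
    have h2 := cramer s k (u l) i j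
    rw [hs0] at h2
    have h3 : (s ⬝ᵥ u l) * D k i j = 0 := by linear_combination -h2 + h1
    exact (mul_ne_zero (hs2 l hl) hkij) h3
  have hnot0 : r0 ∉ S.image r := by
    intro h
    obtain ⟨l, hl, he⟩ := Finset.mem_image.1 h
    refine gen t htk hti htS l hl ?_
    rw [← hr l hl, he]; rfl
  have hnot1 : r1 ∉ S.image r := by
    intro h
    obtain ⟨l, hl, he⟩ := Finset.mem_image.1 h
    refine gen t' htk' hti' htS' l hl ?_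
    rw [← hr l hl, he]; rfl
  have h01 : r0 ∉ insert r1 (S.image r) := by
    rw [Finset.mem_insert, not_or]
    refine ⟨fun h => hne ?_, hnot0⟩
    have h1 : (t ⬝ᵥ j) / (t ⬝ᵥ i) = (t' ⬝ᵥ j) / (t' ⬝ᵥ i) := congrArg (fun x : Kˣ => (x : K)) h
    rwa [div_eq_div_iff hti hti'] at h1
  have hc : (insert r0 (insert r1 (S.image r))).card + 1 = Fintype.card K := by
    rw [Finset.card_insert_of_notMem h01, Finset.card_insert_of_notMem hnot1,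
      Finset.card_image_of_injOn hinj]
    omega
  have h1 := prod_units_neg _ hc
  rw [Finset.prod_insert h01, Finset.prod_insert hnot1,
    Finset.prod_image (fun a ha b hb h => hinj ha hb h)] at h1
  have h2 : ((t ⬝ᵥ j) / (t ⬝ᵥ i)) * (((t' ⬝ᵥ j) / (t' ⬝ᵥ i)) *
      ∏ l ∈ S, (D k (u l) j / D k (u l) i)) = -1 := by
    have h3 := congrArg (fun x : Kˣ => (x : K)) h1
    simp only [Units.val_mul, Units.coe_prod, Units.val_neg, Units.val_one] at h3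
    rw [← h3]
    congr 2
    exact Finset.prod_congr rfl fun l hl => (hr l hl).symm
  rw [Finset.prod_div_distrib] at h2
  have h4 : ∏ l ∈ S, D k (u l) i ≠ 0 := Finset.prod_ne_zero_iff.2 hi
  rw [div_mul_div_comm, div_mul_div_comm, div_eq_iff (mul_ne_zero hti (mul_ne_zero hti' h4))] at h2
  linear_combination h2

/-- the lemma of tangents for two good points and a point with two tangents -/
theorem triple2 {ι : Type} [DecidableEq ι] (S : Finset ι) (hcard : S.card + 2 = Fintype.card K)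
    (hodd : Odd (Fintype.card K)) (u : ι → Fin 3 → K) (i j k ti tj t t' : Fin 3 → K) {z : ι}
    (hz : z ∈ S)
    (h1 : ti ⬝ᵥ i = 0) (h2 : ti ⬝ᵥ j ≠ 0) (h3 : ti ⬝ᵥ k ≠ 0) (h4 : ∀ l ∈ S, ti ⬝ᵥ u l ≠ 0)
    (h5 : tj ⬝ᵥ j = 0) (h6 : tj ⬝ᵥ k ≠ 0) (h7 : tj ⬝ᵥ i ≠ 0) (h8 : ∀ l ∈ S, tj ⬝ᵥ u l ≠ 0)
    (hij' : ti ⬝ᵥ j = tj ⬝ᵥ i)
    (htk : t ⬝ᵥ k = 0) (hti : t ⬝ᵥ i ≠ 0) (htj : t ⬝ᵥ j ≠ 0) (htS : ∀ l ∈ S, t ⬝ᵥ u l ≠ 0)
    (htk' : t' ⬝ᵥ k = 0) (hti' : t' ⬝ᵥ i ≠ 0) (htj' : t' ⬝ᵥ j ≠ 0)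
    (htS' : ∀ l ∈ S, t' ⬝ᵥ u l ≠ 0)
    (hne : (t ⬝ᵥ j) * (t' ⬝ᵥ i) ≠ (t' ⬝ᵥ j) * (t ⬝ᵥ i))
    (hijk : D i j k ≠ 0)
    (hij : ∀ l ∈ S, D i (u l) j ≠ 0) (hik : ∀ l ∈ S, D i (u l) k ≠ 0)
    (hjk : ∀ l ∈ S, D j (u l) k ≠ 0)
    (hi : ∀ l ∈ S, ∀ m ∈ S, l ≠ m → D i (u l) (u m) ≠ 0)
    (hj : ∀ l ∈ S, ∀ m ∈ S, l ≠ m → D j (u l) (u m) ≠ 0)
    (hk : ∀ l ∈ S.erase z, ∀ m ∈ S.erase z, l ≠ m → D k (u l) (u m) ≠ 0) :
    (ti ⬝ᵥ k) * ((t ⬝ᵥ j) * (t' ⬝ᵥ j)) * D k (u z) i =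
      (tj ⬝ᵥ k) * ((t ⬝ᵥ i) * (t' ⬝ᵥ i)) * D k (u z) j := by
  have hSo : Odd S.card := by
    rw [← hcard] at hodd
    rcases hodd with ⟨m, hm⟩
    exact ⟨m - 1, by omega⟩
  have hsw : ∀ a b : Fin 3 → K, ∏ l ∈ S, D b (u l) a = - ∏ l ∈ S, D a (u l) b := by
    intro a b
    rw [Finset.prod_congr rfl (fun l _ => D_swap a (u l) b), Finset.prod_neg, hSo.neg_one_pow]
    ring
  have hneg : ∀ a b : Fin 3 → K, (∀ l ∈ S, D a (u l) b ≠ 0) → ∀ l ∈ S, D b (u l) a ≠ 0 := by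
    intro a b h l hl
    rw [D_swap]
    exact neg_ne_zero.2 (h l hl)
  have hjki : D j k i ≠ 0 := by
    have : D j k i = D i j k := by unfold D; ring
    rw [this]; exact hijk
  have hkij : D k i j ≠ 0 := by
    have : D k i j = D i j k := by unfold D; ring
    rw [this]; exact hijk
  have e1 := seg S hcard u i j k ti h1 h2 h3 h4 hijk hij hik hi
  have e2 := seg S hcard u j k i tj h5 h6 h7 h8 hjki hjk (hneg _ _ hij) hj
  have hse : ∀ l ∈ S.erase z, l ∈ S := fun l hl => Finset.mem_of_mem_erase hl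
  have e3 := seg2 (S.erase z) (by
      rw [Finset.card_erase_of_mem hz]
      have := Finset.card_pos.2 ⟨z, hz⟩
      omega) u k i j t t' htk hti htj (fun l hl => htS l (hse l hl)) htk' hti' htj'
    (fun l hl => htS' l (hse l hl)) hne hkij (fun l hl => hneg _ _ hik l (hse l hl))
    (fun l hl => hneg _ _ hjk l (hse l hl)) hk
  have m1 := Finset.mul_prod_erase S (fun l => D k (u l) j) hz
  have m2 := Finset.mul_prod_erase S (fun l => D k (u l) i) hz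
  rw [hsw i j] at e2
  rw [hsw j k] at m1
  rw [hsw i k] at m2
  have n1 : ∏ l ∈ S, D i (u l) j ≠ 0 := Finset.prod_ne_zero_iff.2 hij
  have n2 : ∏ l ∈ S, D i (u l) k ≠ 0 := Finset.prod_ne_zero_iff.2 hik
  have n3 : ∏ l ∈ S, D j (u l) k ≠ 0 := Finset.prod_ne_zero_iff.2 hjk
  set A := ∏ l ∈ S, D i (u l) j
  set B := ∏ l ∈ S, D i (u l) k
  set C := ∏ l ∈ S, D j (u l) k
  set X := ∏ l ∈ S.erase z, D k (u l) j
  set Y := ∏ l ∈ S.erase z, D k (u l) i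
  have h := mul_ne_zero (mul_ne_zero (mul_ne_zero n1 n2) n3) h2
  apply mul_left_cancel₀ h
  have f1 : (ti ⬝ᵥ k) * B = -((ti ⬝ᵥ j) * A) := e1
  have f2 : (tj ⬝ᵥ i) * A = (tj ⬝ᵥ k) * C := by linear_combination -e2
  have f3 : ((t ⬝ᵥ j) * (t' ⬝ᵥ j)) * D k (u z) i * C =
      -(((t ⬝ᵥ i) * (t' ⬝ᵥ i)) * D k (u z) j * B) := by
    linear_combination (-(D k (u z) i) * D k (u z) j) * e3 +
      ((t ⬝ᵥ j) * (t' ⬝ᵥ j)) * D k (u z) i * m1 + ((t ⬝ᵥ i) * (t' ⬝ᵥ i)) * D k (u z) j * m2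
  calc A * B * C * (ti ⬝ᵥ j) * ((ti ⬝ᵥ k) * ((t ⬝ᵥ j) * (t' ⬝ᵥ j)) * D k (u z) i)
      = ((ti ⬝ᵥ k) * B) * ((ti ⬝ᵥ j) * A) * (((t ⬝ᵥ j) * (t' ⬝ᵥ j)) * D k (u z) i * C) := by ring
    _ = (-((ti ⬝ᵥ j) * A)) * ((tj ⬝ᵥ i) * A) *
        (-(((t ⬝ᵥ i) * (t' ⬝ᵥ i)) * D k (u z) j * B)) := by rw [f1, f3, hij']
    _ = (-((ti ⬝ᵥ j) * A)) * ((tj ⬝ᵥ k) * C) *
        (-(((t ⬝ᵥ i) * (t' ⬝ᵥ i)) * D k (u z) j * B)) := by rw [f2]
    _ = _ := by ring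

end Run7.h255.NH
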