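import Mathlib
import Pool.Agent.Run7.h255.NH.Two

/-!
# If a point has exactly two tangents and is on a line with three points, then there are at most
four good points
-/

set_option autoImplicit false

open scoped LinearAlgebra.Projectivization
open Matrix Projectivization Finset

namespace Run7.h255.NH

variable {K : Type} [Field K] [Fintype K] [DecidableEq K]

theorem vec_of_form (f : (Fin 3 → K) →ₗ[K] K) : ∃ t : Fin 3 → K, ∀ y, t ⬝ᵥ y = f y := by
  refine ⟨fun i => f (Pi.single i 1), fun y => ?_⟩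
  have h : y = ∑ i, y i • (Pi.single i (1 : K) : Fin 3 → K) := by
    ext j
    rw [Finset.sum_apply]
    simp [Pi.single_apply]
  conv_rhs => rw [h]
  rw [map_sum, dotProduct]
  refine Finset.sum_congr rfl fun i _ => ?_
  rw [map_smul, smul_eq_mul, mul_comm]

theorem good_le_four {S : Finset (ℙ K (Fin 3 → K))} (hS : S.card = Fintype.card K + 1)
    (hodd : Odd (Fintype.card K)) (h2 : (2 : K) ≠ 0)
    {k k₁ k₂ : ℙ K (Fin 3 → K)} (hk : k ∈ S) (hk₁ : k₁ ∈ S) (hk₂ : k₂ ∈ S) (h1k : k₁ ≠ k)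
    (h2k : k₂ ≠ k) (h12 : k₁ ≠ k₂) (hcol : D k.rep k₁.rep k₂.rep = 0)
    (hu : ∀ Q ∈ S, ∀ R ∈ S, Q ≠ k → R ≠ k → Q ≠ R → D k.rep Q.rep R.rep = 0 →
      (Q = k₁ ∧ R = k₂) ∨ (Q = k₂ ∧ R = k₁)) (G : Finset (ℙ K (Fin 3 → K)))
    (hG : ∀ P, P ∈ G ↔ Good S P) : G.card ≤ 4 := by
  classical
  by_contra hcon
  push Not at hcon
  obtain ⟨p, hp, q, hq, C, hC, hpq, hpC, hqC⟩ :
      ∃ A ∈ G, ∃ B ∈ G, ∃ C ∈ G, A ≠ B ∧ A ≠ C ∧ B ≠ C := by
    obtain ⟨A, B, C, hA, hB, hC, h⟩ := Finset.two_lt_card_iff.1 (show 2 < G.card by omega)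
    exact ⟨A, hA, B, hB, C, hC, h⟩
  rw [hG] at hp hq hC
  obtain ⟨β, hsym, hnd, hβ⟩ := exists_bilin hS hodd h2 hp hq hC hpq hpC hqC
  obtain ⟨t₁, t₂, ht, hkt₁, hkt₂, hmiss⟩ := exists_two hS hk hk₁ hk₂ h1k h2k h12 hcol hu
  have hkt₁' := (orth_iff _ _).1 hkt₁
  have hkt₂' := (orth_iff _ _).1 hkt₂
  have hτ : ∀ Q ∈ S, Q ≠ k → t₁.rep ⬝ᵥ Q.rep ≠ 0 := fun Q hQ hne h =>
    (hmiss Q hQ hne).1 ((orth_iff _ _).2 h)
  have hτ' : ∀ Q ∈ S, Q ≠ k → t₂.rep ⬝ᵥ Q.rep ≠ 0 := fun Q hQ hne h =>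
    (hmiss Q hQ hne).2 ((orth_iff _ _).2 h)
  have hkbad : ∀ P, Good S P → P ≠ k ∧ P ≠ k₁ ∧ P ≠ k₂ := by
    intro P hP
    refine ⟨?_, ?_, ?_⟩
    · rintro rfl
      exact hP.2 k₁ hk₁ k₂ hk₂ h1k h2k h12 hcol
    · rintro rfl
      refine hP.2 k hk k₂ hk₂ h1k.symm h12.symm h2k.symm ?_
      have : D P.rep k.rep k₂.rep = - D k.rep P.rep k₂.rep := by unfold D; ring
      rw [this, hcol, neg_zero]
    · rintro rfl
      refine hP.2 k hk k₁ hk₁ h2k.symm h12 h1k.symm ?_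
      have : D P.rep k.rep k₁.rep = D k.rep k₁.rep P.rep := by unfold D; ring
      rw [this, hcol]
  -- the tangents are different lines
  have htt : ∀ i j : ℙ K (Fin 3 → K), D k.rep i.rep j.rep ≠ 0 →
      (t₁.rep ⬝ᵥ j.rep) * (t₂.rep ⬝ᵥ i.rep) ≠ (t₂.rep ⬝ᵥ j.rep) * (t₁.rep ⬝ᵥ i.rep) := by
    intro i j hD h
    have hz : ∀ y : Fin 3 → K, ((t₂.rep ⬝ᵥ i.rep) • t₁.rep - (t₁.rep ⬝ᵥ i.rep) • t₂.rep) ⬝ᵥ y = 0 := by
      intro y
      have e := expand k.rep i.rep j.rep y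
      have e1 := congrArg (fun x => ((t₂.rep ⬝ᵥ i.rep) • t₁.rep -
        (t₁.rep ⬝ᵥ i.rep) • t₂.rep) ⬝ᵥ x) e
      simp only [dotProduct_smul, dotProduct_add, sub_dotProduct, smul_dotProduct, smul_eq_mul,
        hkt₁', hkt₂', mul_zero, sub_zero, zero_add] at e1
      have e2 : D k.rep i.rep j.rep * (((t₂.rep ⬝ᵥ i.rep) • t₁.rep -
          (t₁.rep ⬝ᵥ i.rep) • t₂.rep) ⬝ᵥ y) = 0 := by
        simp only [sub_dotProduct, smul_dotProduct, smul_eq_mul]
        linear_combination e1 + D k.rep i.rep y * h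
      exact (mul_eq_zero.1 e2).resolve_left hD
    have hz' := dotProduct_eq_zero _ hz
    by_cases hi0 : t₁.rep ⬝ᵥ i.rep = 0
    · by_cases hi1 : t₂.rep ⬝ᵥ i.rep = 0
      · -- both lines pass through `k` and `i`
        apply ht
        have hki : k ≠ i := by
          rintro rfl
          apply hD
          unfold D; ring
        exact (Configuration.ofField.eq_or_eq_of_orthogonal hkt₁ ((orth_iff _ _).2 hi0)
          hkt₂ ((orth_iff _ _).2 hi1)).resolve_left hki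
      · rw [hi0, zero_smul, sub_zero] at hz'
        rcases smul_eq_zero.1 hz' with h3 | h3
        · exact hi1 h3
        · exact t₁.rep_nonzero h3
    · apply ht
      have h3 : t₁.rep ≠ 0 := t₁.rep_nonzero
      have h4 : (t₂.rep ⬝ᵥ i.rep) • t₁.rep = (t₁.rep ⬝ᵥ i.rep) • t₂.rep := sub_eq_zero.1 hz'
      rw [← t₁.mk_rep, ← t₂.mk_rep, mk_eq_mk_iff']
      refine ⟨(t₂.rep ⬝ᵥ i.rep)⁻¹ * (t₁.rep ⬝ᵥ i.rep), ?_⟩
      have h5 : t₂.rep ⬝ᵥ i.rep ≠ 0 := by
        intro h6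
        rw [h6, zero_smul] at h4
        rcases smul_eq_zero.1 h4.symm with h7 | h7
        · exact hi0 h7
        · exact t₂.rep_nonzero h7
      rw [mul_smul, ← h4, smul_smul, inv_mul_cancel₀ h5, one_smul]
  choose tv htv using fun P : ℙ K (Fin 3 → K) => vec_of_form (β P.rep)
  have hDk : ∀ i j, Good S i → Good S j → i ≠ j → D k.rep i.rep j.rep ≠ 0 := by
    intro i j hi hj hij h
    refine hi.2 k hk j hj.1 (hkbad i hi).1.symm hij.symm (hkbad j hj).1.symm ?_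
    have : D i.rep k.rep j.rep = - D k.rep i.rep j.rep := by unfold D; ring
    rw [this, h, neg_zero]
  have hDs : ∀ i, Good S i → D k.rep k₂.rep i.rep ≠ 0 := by
    intro i hi h
    refine hi.2 k hk k₂ hk₂ (hkbad i hi).1.symm (hkbad i hi).2.2.symm h2k.symm ?_
    have : D i.rep k.rep k₂.rep = D k.rep k₂.rep i.rep := by unfold D; ring
    rw [this, h]
  -- the relation
  have hrel : ∀ i j, Good S i → Good S j → i ≠ j →
      β i.rep k.rep * ((t₁.rep ⬝ᵥ j.rep) * (t₂.rep ⬝ᵥ j.rep)) * D k.rep k₂.rep i.rep =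
        β j.rep k.rep * ((t₁.rep ⬝ᵥ i.rep) * (t₂.rep ⬝ᵥ i.rep)) * D k.rep k₂.rep j.rep := by
    intro i j hi hj hij
    obtain ⟨i1, i2, -⟩ := hβ i hi
    obtain ⟨j1, j2, -⟩ := hβ j hj
    have hik := (hkbad i hi).1
    have hjk := (hkbad j hj).1
    have hcard : (((S.erase i).erase j).erase k).card + 2 = Fintype.card K := by
      rw [Finset.card_erase_of_mem, Finset.card_erase_of_mem, Finset.card_erase_of_mem hi.1, hS]
      · obtain ⟨m, hm⟩ := hodd
        have h4 := Finset.card_le_card (show G ⊆ S from fun P hP => ((hG P).1 hP).1)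
        omega
      · exact Finset.mem_erase.2 ⟨hij.symm, hj.1⟩
      · exact Finset.mem_erase.2 ⟨hjk.symm, Finset.mem_erase.2 ⟨hik.symm, hk⟩⟩
    have hmem : ∀ l ∈ (((S.erase i).erase j).erase k), l ∈ S ∧ l ≠ i ∧ l ≠ j ∧ l ≠ k := by
      intro l hl
      simp only [Finset.mem_erase] at hl
      exact ⟨hl.2.2.2, hl.2.2.1, hl.2.1, hl.1⟩
    have hz : k₂ ∈ (((S.erase i).erase j).erase k) := by
      simp only [Finset.mem_erase]
      exact ⟨h2k, (hkbad j hj).2.2.symm, (hkbad i hi).2.2.symm, hk₂⟩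
    have h := triple2 (((S.erase i).erase j).erase k) hcard hodd (fun l => l.rep) i.rep j.rep k.rep
      (tv i) (tv j) t₁.rep t₂.rep hz
      (by rw [htv]; exact i1) (by rw [htv]; exact i2 j hj.1 hij.symm)
      (by rw [htv]; exact i2 k hk hik.symm)
      (fun l hl => by rw [htv]; exact i2 l (hmem l hl).1 (hmem l hl).2.1)
      (by rw [htv]; exact j1) (by rw [htv]; exact j2 k hk hjk.symm)
      (by rw [htv]; exact j2 i hi.1 hij)
      (fun l hl => by rw [htv]; exact j2 l (hmem l hl).1 (hmem l hl).2.2.1)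
      (by rw [htv, htv]; exact hsym _ _)
      hkt₁' (hτ i hi.1 hik) (hτ j hj.1 hjk) (fun l hl => hτ l (hmem l hl).1 (hmem l hl).2.2.2)
      hkt₂' (hτ' i hi.1 hik) (hτ' j hj.1 hjk) (fun l hl => hτ' l (hmem l hl).1 (hmem l hl).2.2.2)
      (htt i j (hDk i j hi hj hij))
      (hi.2 j hj.1 k hk hij.symm hik.symm hjk)
      (fun l hl => hi.2 l (hmem l hl).1 j hj.1 (hmem l hl).2.1 hij.symm (hmem l hl).2.2.1)
      (fun l hl => hi.2 l (hmem l hl).1 k hk (hmem l hl).2.1 hik.symm (hmem l hl).2.2.2)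
      (fun l hl => hj.2 l (hmem l hl).1 k hk (hmem l hl).2.2.1 hjk.symm (hmem l hl).2.2.2)
      (fun l hl m hm hne => hi.2 l (hmem l hl).1 m (hmem m hm).1 (hmem l hl).2.1
        (hmem m hm).2.1 hne)
      (fun l hl m hm hne => hj.2 l (hmem l hl).1 m (hmem m hm).1 (hmem l hl).2.2.1
        (hmem m hm).2.2.1 hne)
      (fun l hl m hm hne h0 => by
        have hl' := hmem l (Finset.mem_of_mem_erase hl)
        have hm' := hmem m (Finset.mem_of_mem_erase hm)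
        rcases hu l hl'.1 m hm'.1 hl'.2.2.2 hm'.2.2.2 hne h0 with h5 | h5
        · exact (Finset.mem_erase.1 hm).1 h5.2
        · exact (Finset.mem_erase.1 hl).1 h5.1)
    rw [htv, htv] at h
    exact h
  set a : K := (t₁.rep ⬝ᵥ p.rep) * (t₂.rep ⬝ᵥ p.rep) with ha
  set b : K := β p.rep k.rep * D k.rep k₂.rep p.rep with hb
  have hb0 : b ≠ 0 := mul_ne_zero ((hβ p hp).2.1 k hk (hkbad p hp).1.symm) (hDs p hp)
  have hconst : ∀ i, Good S i → a * (β i.rep k.rep * D k.rep k₂.rep i.rep) =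
      b * ((t₁.rep ⬝ᵥ i.rep) * (t₂.rep ⬝ᵥ i.rep)) := by
    intro i hi
    rcases eq_or_ne i p with rfl | hne
    · rw [ha, hb]; ring
    · have := hrel i p hi hp hne
      rw [ha, hb]
      linear_combination this
  -- the quartic
  let hpp : K := β k.rep k.rep * β p.rep p.rep - β p.rep k.rep ^ 2
  let hqq : K := β k.rep k.rep * β q.rep q.rep - β q.rep k.rep ^ 2
  let hpq2 : K := β k.rep k.rep * β p.rep q.rep - β p.rep k.rep * β q.rep k.rep
  let sp := D k.rep k₂.rep p.rep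
  let sq := D k.rep k₂.rep q.rep
  let P : Polynomial K := Polynomial.C (a ^ 2) * (Polynomial.C hpp * Polynomial.X ^ 2 +
      Polynomial.C (2 * hpq2) * Polynomial.X + Polynomial.C hqq) *
      (Polynomial.C sp * Polynomial.X + Polynomial.C sq) ^ 2 +
    Polynomial.C (b ^ 2) * (Polynomial.C (t₁.rep ⬝ᵥ p.rep) * Polynomial.X +
      Polynomial.C (t₁.rep ⬝ᵥ q.rep)) ^ 2 * (Polynomial.C (t₂.rep ⬝ᵥ p.rep) * Polynomial.X +
      Polynomial.C (t₂.rep ⬝ᵥ q.rep)) ^ 2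
  have hPe : ∀ x : K, P.eval x = a ^ 2 * (hpp * x ^ 2 + 2 * hpq2 * x + hqq) * (sp * x + sq) ^ 2 +
      b ^ 2 * ((t₁.rep ⬝ᵥ p.rep) * x + t₁.rep ⬝ᵥ q.rep) ^ 2 *
        ((t₂.rep ⬝ᵥ p.rep) * x + t₂.rep ⬝ᵥ q.rep) ^ 2 := by
    intro x
    simp [P]
  have hsp : sp ≠ 0 := hDs p hp
  have hP0 : P ≠ 0 := by
    intro h0
    have h3 := hPe (-sq / sp)
    rw [h0, Polynomial.eval_zero] at h3
    have h4 : sp * (-sq / sp) + sq = 0 := by field_simp; ring
    rw [h4] at h3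
    have key : ∀ t : Fin 3 → K, t ⬝ᵥ k.rep = 0 → t ⬝ᵥ k₂.rep ≠ 0 →
        (t ⬝ᵥ p.rep) * (-sq / sp) + t ⬝ᵥ q.rep ≠ 0 := by
      intro t ht0 ht2 h5
      have h6 := cramer t k.rep k₂.rep p.rep q.rep
      rw [ht0] at h6
      have h7 : (t ⬝ᵥ p.rep) * sq = (t ⬝ᵥ q.rep) * sp := by
        field_simp at h5
        linear_combination -h5
      have h8 : (t ⬝ᵥ k₂.rep) * D k.rep p.rep q.rep = 0 := by
        have h9 : (t ⬝ᵥ p.rep) * D k.rep k₂.rep q.rep = (t ⬝ᵥ q.rep) * D k.rep k₂.rep p.rep := h7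
        linear_combination -h6 + h9
      exact (mul_ne_zero ht2 (hDk p q hp hq hpq)) h8
    have k1 := key t₁.rep hkt₁' (hτ k₂ hk₂ h2k)
    have k2 := key t₂.rep hkt₂' (hτ' k₂ hk₂ h2k)
    have h5 : b ^ 2 * ((t₁.rep ⬝ᵥ p.rep) * (-sq / sp) + t₁.rep ⬝ᵥ q.rep) ^ 2 *
        ((t₂.rep ⬝ᵥ p.rep) * (-sq / sp) + t₂.rep ⬝ᵥ q.rep) ^ 2 = 0 := by
      rw [h3]; ring
    exact (mul_ne_zero (mul_ne_zero (pow_ne_zero 2 hb0) (pow_ne_zero 2 k1)) (pow_ne_zero 2 k2)) h5
  have hdeg4 : P.natDegree ≤ 4 := by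
    simp only [P]
    compute_degree
  have hcoef : P.coeff 4 = 0 := by
    have h3 : P.coeff 4 = a ^ 2 * hpp * sp ^ 2 +
        b ^ 2 * (t₁.rep ⬝ᵥ p.rep) ^ 2 * (t₂.rep ⬝ᵥ p.rep) ^ 2 := by
      simp only [P]
      compute_degree!
    rw [h3]
    have h4 := hconst p hp
    simp only [hpp, sp]
    rw [(hβ p hp).1]
    linear_combination (-(a * (β p.rep k.rep * D k.rep k₂.rep p.rep)) -
      b * ((t₁.rep ⬝ᵥ p.rep) * (t₂.rep ⬝ᵥ p.rep))) * h4
  have hdeg : P.natDegree ≤ 3 := by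
    by_contra h3
    have h4 : P.natDegree = 4 := by omega
    apply hP0
    rw [← Polynomial.leadingCoeff_eq_zero, Polynomial.leadingCoeff, h4, hcoef]
  -- the roots
  let T : ℙ K (Fin 3 → K) → K := fun i => D k.rep i.rep q.rep / D k.rep p.rep i.rep
  have hroot : ∀ i, Good S i → i ≠ p → P.eval (T i) = 0 := by
    intro i hi hne
    have hy : D k.rep p.rep i.rep ≠ 0 := hDk p i hp hi hne.symm
    have hx : T i * D k.rep p.rep i.rep = D k.rep i.rep q.rep := div_mul_cancel₀ _ hy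
    have hδ : D k.rep p.rep q.rep ≠ 0 := hDk p q hp hq hpq
    have e := expand k.rep p.rep q.rep i.rep
    set δ := D k.rep p.rep q.rep
    set y := D k.rep p.rep i.rep
    set x := D k.rep i.rep q.rep
    set m := D i.rep p.rep q.rep
    have eform : ∀ t : Fin 3 → K, t ⬝ᵥ k.rep = 0 →
        δ * (t ⬝ᵥ i.rep) = x * (t ⬝ᵥ p.rep) + y * (t ⬝ᵥ q.rep) := by
      intro t ht0
      have h3 := congrArg (fun z => t ⬝ᵥ z) e
      simp only [dotProduct_smul, dotProduct_add, smul_eq_mul, ht0, mul_zero, zero_add] at h3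
      exact h3
    have f1 := eform t₁.rep hkt₁'
    have f2 := eform t₂.rep hkt₂'
    have f3 : δ * D k.rep k₂.rep i.rep = x * sp + y * sq := by
      have h3 := congrArg (fun z => D k.rep k₂.rep z) e
      have h4 : D k.rep k₂.rep (δ • i.rep) = δ * D k.rep k₂.rep i.rep := by
        simp only [D, Pi.smul_apply, smul_eq_mul]; ring
      have h5 : D k.rep k₂.rep (m • k.rep + x • p.rep + y • q.rep) = x * sp + y * sq := by
        simp only [sp, sq, D, Pi.smul_apply, Pi.add_apply, smul_eq_mul]; ring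
      have h6 : D k.rep k₂.rep (δ • i.rep) = D k.rep k₂.rep (m • k.rep + x • p.rep + y • q.rep) := h3
      rw [h4, h5] at h6
      exact h6
    have g1 := congrArg (fun z => β z k.rep) e
    have g2 := congrArg (fun z => β z z) e
    simp only [map_smul, map_add, LinearMap.smul_apply, LinearMap.add_apply, smul_eq_mul] at g1 g2
    rw [(hβ i hi).1, hsym k.rep p.rep, hsym k.rep q.rep, hsym q.rep p.rep] at g2
    have f4 : -(δ * β i.rep k.rep) ^ 2 = x ^ 2 * hpp + 2 * x * y * hpq2 + y ^ 2 * hqq := by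
      simp only [hpp, hqq, hpq2]
      rw [g1]
      linear_combination (β k.rep k.rep) * g2
    have f5 := hconst i hi
    have f6 : a ^ 2 * (x ^ 2 * hpp + 2 * x * y * hpq2 + y ^ 2 * hqq) * (x * sp + y * sq) ^ 2 +
        b ^ 2 * (x * (t₁.rep ⬝ᵥ p.rep) + y * (t₁.rep ⬝ᵥ q.rep)) ^ 2 *
          (x * (t₂.rep ⬝ᵥ p.rep) + y * (t₂.rep ⬝ᵥ q.rep)) ^ 2 = 0 := by
      rw [← f1, ← f2, ← f3, ← f4]
      linear_combination (-(δ ^ 4) * (a * (β i.rep k.rep * D k.rep k₂.rep i.rep) +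
        b * ((t₁.rep ⬝ᵥ i.rep) * (t₂.rep ⬝ᵥ i.rep)))) * f5
    have f7 : y ^ 4 * P.eval (T i) = 0 := by
      rw [hPe, ← f6, ← hx]
      ring
    exact (mul_eq_zero.1 f7).resolve_left (pow_ne_zero 4 hy)
  have hTinj : Set.InjOn T (G.erase p : Finset (ℙ K (Fin 3 → K))) := by
    intro i hi j hj h
    have hi' := Finset.mem_erase.1 (Finset.mem_coe.1 hi)
    have hj' := Finset.mem_erase.1 (Finset.mem_coe.1 hj)
    have gi := (hG i).1 hi'.2
    have gj := (hG j).1 hj'.2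
    by_contra hne
    have h3 : D k.rep i.rep q.rep / D k.rep p.rep i.rep =
        D k.rep j.rep q.rep / D k.rep p.rep j.rep := h
    rw [div_eq_div_iff (hDk p i hp gi hi'.1.symm) (hDk p j hp gj hj'.1.symm)] at h3
    have h4 := pluck k.rep i.rep j.rep p.rep q.rep
    have h5 : D k.rep p.rep j.rep = - D k.rep j.rep p.rep := by unfold D; ring
    have h6 : D k.rep p.rep i.rep = - D k.rep i.rep p.rep := by unfold D; ring
    rw [h5, h6] at h3
    have h7 : D k.rep i.rep j.rep * D k.rep q.rep p.rep = 0 := by linear_combination -h4 - h3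
    exact (mul_ne_zero (hDk i j gi gj hne) (hDk q p hq hp hpq.symm)) h7
  have hsub : (G.erase p).image T ⊆ P.roots.toFinset := by
    intro x hx
    obtain ⟨i, hi, rfl⟩ := Finset.mem_image.1 hx
    have hi' := Finset.mem_erase.1 hi
    rw [Multiset.mem_toFinset, Polynomial.mem_roots hP0]
    exact hroot i ((hG i).1 hi'.2) hi'.1
  have h3 := Finset.card_le_card hsub
  rw [Finset.card_image_of_injOn hTinj, Finset.card_erase_of_mem ((hG p).2 hp)] at h3
  have h4 := (Multiset.toFinset_card_le P.roots).trans (Polynomial.card_roots' P)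
  omega

end Run7.h255.NH
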