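import Mathlib
import Pool.Agent.Run7.h255.NH.Sum
import Pool.Agent.Run7.h255.NH.Quart

/-!
# The number of lines missing a set of `q + 1` points: the stronger upper bound
-/

set_option autoImplicit false

open scoped LinearAlgebra.Projectivization
open Matrix Projectivization Finset

namespace Run7.h255.NH

variable {K : Type} [Field K] [Fintype K] [DecidableEq K]

/-- the weight of a line -/
noncomputable def wt (S : Finset (ℙ K (Fin 3 → K))) (l : (ℙ K (Fin 3 → K))) : ℕ := inc S l - 2

open Classical in
/-- the weight of a point -/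
noncomputable def ew (S : Finset (ℙ K (Fin 3 → K))) (P : (ℙ K (Fin 3 → K))) : ℕ :=
  ∑ l : (ℙ K (Fin 3 → K)), if P.orthogonal l then wt S l else 0

theorem sum_ew (S : Finset (ℙ K (Fin 3 → K))) :
    ∑ P ∈ S, ew S P = ∑ l : (ℙ K (Fin 3 → K)), inc S l * wt S l := by
  classical
  unfold ew
  rw [Finset.sum_comm]
  refine Finset.sum_congr rfl fun l _ => ?_
  rw [← Finset.sum_filter, Finset.sum_const, smul_eq_mul]
  rfl

theorem inc_of_subset {S T : Finset (ℙ K (Fin 3 → K))} {l : (ℙ K (Fin 3 → K))}
    (h : ∀ P ∈ T, P ∈ S ∧ P.orthogonal l) : T.card ≤ inc S l := by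
  classical
  refine Finset.card_le_card fun P hP => ?_
  rw [Finset.mem_filter]
  exact h P hP

theorem upper2 {S : Finset (ℙ K (Fin 3 → K))} (hS : S.card = Fintype.card K + 1)
    (hodd : Odd (Fintype.card K)) (h2 : (2 : K) ≠ 0) (h3 : 3 ≤ Fintype.card K)
    (h : 2 * missing S < Fintype.card K * (Fintype.card K - 1)) :
    6 * missing S + 2 * Fintype.card K ≤ 3 * (Fintype.card K * (Fintype.card K - 1)) + 6 := by
  classical
  obtain ⟨p₁, hp₁, p₂, hp₂, p₃, hp₃, h12, h13, h23, hcol⟩ := exists_three hS h
  set G : Finset (ℙ K (Fin 3 → K)) := S.filter (fun P => Good S P) with hG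
  have hGm : ∀ P, P ∈ G ↔ Good S P := by
    intro P
    rw [hG, Finset.mem_filter]
    exact ⟨fun h => h.2, fun h => ⟨h.1, h⟩⟩
  have hGc : 2 * G.card ≤ Fintype.card K + 1 := by
    by_cases h3 : 3 ≤ G.card
    · exact nuclei_le hS hodd h2 hp₁ hp₂ hp₃ h12 h13 h23 hcol G hGm h3
    · omega
  have hGS : G ⊆ S := Finset.filter_subset _ _
  have h8 : (S \ G).card + G.card = Fintype.card K + 1 := by
    rw [Finset.card_sdiff_of_subset hGS, hS]
    have := Finset.card_le_card hGS
    omega
  -- a line through a point which is not good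
  have hbad : ∀ P ∈ S \ G, ∃ Q ∈ S, ∃ R ∈ S, Q ≠ P ∧ R ≠ P ∧ Q ≠ R ∧ D P.rep Q.rep R.rep = 0 := by
    intro P hP
    rw [Finset.mem_sdiff, hGm] at hP
    have h4 : ¬ ∀ Q ∈ S, ∀ R ∈ S, Q ≠ P → R ≠ P → Q ≠ R → D P.rep Q.rep R.rep ≠ 0 :=
      fun h5 => hP.2 ⟨hP.1, h5⟩
    push Not at h4
    obtain ⟨Q, hQ, R, hR, hQP, hRP, hQR, h5⟩ := h4
    exact ⟨Q, hQ, R, hR, hQP, hRP, hQR, h5⟩
  have hw1 : ∀ P ∈ S, ∀ Q ∈ S, ∀ R ∈ S, Q ≠ P → R ≠ P → Q ≠ R → D P.rep Q.rep R.rep = 0 →
      P.orthogonal (cross Q R) ∧ 1 ≤ wt S (cross Q R) := by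
    intro P hP Q hQ R hR hQP hRP hQR h5
    rw [← orth_cross P Q R hQR] at h5
    refine ⟨h5, ?_⟩
    have h6 : ({P, Q, R} : Finset (ℙ K (Fin 3 → K))).card ≤ inc S (cross Q R) := by
      apply inc_of_subset
      intro X hX
      simp only [Finset.mem_insert, Finset.mem_singleton] at hX
      rcases hX with rfl | rfl | rfl
      · exact ⟨hP, h5⟩
      · exact ⟨hQ, orthogonal_cross_left hQR⟩
      · exact ⟨hR, orthogonal_cross_right hQR⟩
    rw [Finset.card_eq_three.2 ⟨P, Q, R, hQP.symm, hRP.symm, hQR, rfl⟩] at h6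
    unfold wt
    omega
  have hsum : Fintype.card K ≤ ∑ P ∈ S, ew S P + 3 := by
    by_cases hA : ∃ k ∈ S, ∃ k₁ ∈ S, ∃ k₂ ∈ S, k₁ ≠ k ∧ k₂ ≠ k ∧ k₁ ≠ k₂ ∧
        D k.rep k₁.rep k₂.rep = 0 ∧
        ∀ Q ∈ S, ∀ R ∈ S, Q ≠ k → R ≠ k → Q ≠ R → D k.rep Q.rep R.rep = 0 →
          (Q = k₁ ∧ R = k₂) ∨ (Q = k₂ ∧ R = k₁)
    · obtain ⟨k, hk, k₁, hk₁, k₂, hk₂, h1k, h2k, h12', hc, hu⟩ := hA
      have h9 := good_le_four hS hodd h2 hk hk₁ hk₂ h1k h2k h12' hc hu G hGm
      have h10 : (S \ G).card ≤ ∑ P ∈ S, ew S P := by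
        calc (S \ G).card = ∑ P ∈ S \ G, 1 := by simp
          _ ≤ ∑ P ∈ S \ G, ew S P := by
              refine Finset.sum_le_sum fun P hP => ?_
              obtain ⟨Q, hQ, R, hR, hQP, hRP, hQR, h5⟩ := hbad P hP
              obtain ⟨h6, h7⟩ := hw1 P (Finset.mem_sdiff.1 hP).1 Q hQ R hR hQP hRP hQR h5
              refine h7.trans ?_
              have h11 := Finset.single_le_sum (f := fun l : (ℙ K (Fin 3 → K)) =>
                if P.orthogonal l then wt S l else 0) (fun _ _ => Nat.zero_le _)
                (Finset.mem_univ (cross Q R))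
              simp only [h6, if_true] at h11
              exact h11
          _ ≤ ∑ P ∈ S, ew S P := Finset.sum_le_sum_of_subset Finset.sdiff_subset
      omega
    · have h10 : 2 * (S \ G).card ≤ ∑ P ∈ S, ew S P := by
        calc 2 * (S \ G).card = ∑ P ∈ S \ G, 2 := by
              rw [Finset.sum_const, smul_eq_mul, mul_comm]
          _ ≤ ∑ P ∈ S \ G, ew S P := by
              refine Finset.sum_le_sum fun P hP => ?_
              have hPS := (Finset.mem_sdiff.1 hP).1
              obtain ⟨Q, hQ, R, hR, hQP, hRP, hQR, h5⟩ := hbad P hP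
              obtain ⟨h6, h7⟩ := hw1 P hPS Q hQ R hR hQP hRP hQR h5
              have hB : ¬ ∀ Q' ∈ S, ∀ R' ∈ S, Q' ≠ P → R' ≠ P → Q' ≠ R' →
                  D P.rep Q'.rep R'.rep = 0 → (Q' = Q ∧ R' = R) ∨ (Q' = R ∧ R' = Q) :=
                fun hu => hA ⟨P, hPS, Q, hQ, R, hR, hQP, hRP, hQR, h5, hu⟩
              push Not at hB
              obtain ⟨Q', hQ', R', hR', hQP', hRP', hQR', h5', hn1, hn2⟩ := hB
              obtain ⟨h6', h7'⟩ := hw1 P hPS Q' hQ' R' hR' hQP' hRP' hQR' h5'
              by_cases hl : cross Q R = cross Q' R'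
              · have hx : ∃ X ∈ S, X.orthogonal (cross Q R) ∧ X ≠ P ∧ X ≠ Q ∧ X ≠ R := by
                  by_cases hX : Q' ≠ Q ∧ Q' ≠ R
                  · exact ⟨Q', hQ', by rw [hl]; exact orthogonal_cross_left hQR', hQP', hX.1, hX.2⟩
                  · refine ⟨R', hR', by rw [hl]; exact orthogonal_cross_right hQR', hRP', ?_, ?_⟩
                    · intro he
                      by_cases hq : Q' = Q
                      · exact hQR' (hq.trans he.symm)
                      · have hr : Q' = R := by
                          by_contra hr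
                          exact hX ⟨hq, hr⟩
                        exact hn2 hr he
                    · intro he
                      by_cases hq : Q' = R
                      · exact hQR' (hq.trans he.symm)
                      · have hr : Q' = Q := by
                          by_contra hr
                          exact hX ⟨hr, hq⟩
                        exact hn1 hr he
                obtain ⟨X, hXS, hXl, hXP, hXQ, hXR⟩ := hx
                have h12 : ({X, P, Q, R} : Finset (ℙ K (Fin 3 → K))).card ≤ inc S (cross Q R) := by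
                  apply inc_of_subset
                  intro Y hY
                  simp only [Finset.mem_insert, Finset.mem_singleton] at hY
                  rcases hY with rfl | rfl | rfl | rfl
                  · exact ⟨hXS, hXl⟩
                  · exact ⟨hPS, h6⟩
                  · exact ⟨hQ, orthogonal_cross_left hQR⟩
                  · exact ⟨hR, orthogonal_cross_right hQR⟩
                have h13 : ({X, P, Q, R} : Finset (ℙ K (Fin 3 → K))).card = 4 := by
                  rw [Finset.card_insert_of_notMem (by simp [hXP, hXQ, hXR]),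
                    Finset.card_eq_three.2 ⟨P, Q, R, hQP.symm, hRP.symm, hQR, rfl⟩]
                have h14 : 2 ≤ wt S (cross Q R) := by
                  unfold wt
                  omega
                refine h14.trans ?_
                have h11 := Finset.single_le_sum (f := fun l : (ℙ K (Fin 3 → K)) =>
                  if P.orthogonal l then wt S l else 0) (fun _ _ => Nat.zero_le _)
                  (Finset.mem_univ (cross Q R))
                simp only [h6, if_true] at h11
                exact h11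
              · have h11 : ∑ l ∈ ({cross Q R, cross Q' R'} : Finset (ℙ K (Fin 3 → K))),
                    (if P.orthogonal l then wt S l else 0) ≤ ew S P := by
                  unfold ew
                  exact Finset.sum_le_sum_of_subset (Finset.subset_univ _)
                rw [Finset.sum_pair hl, if_pos h6, if_pos h6'] at h11
                omega
          _ ≤ ∑ P ∈ S, ew S P := Finset.sum_le_sum_of_subset Finset.sdiff_subset
      omega
  rw [sum_ew] at hsum
  have hpt : ∀ l : (ℙ K (Fin 3 → K)), 6 * (if inc S l = 0 then (1 : ℤ) else 0) +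
      2 * ((inc S l * wt S l : ℕ) : ℤ) ≤
        3 * (((inc S l : ℤ) - 1) * ((inc S l : ℤ) - 2)) := by
    intro l
    unfold wt
    rcases Nat.lt_or_ge (inc S l) 3 with h4 | h4
    · interval_cases h5 : inc S l <;> simp
    · rw [if_neg (by omega)]
      obtain ⟨m, hm⟩ := Nat.exists_eq_add_of_le h4
      rw [hm, show 3 + m - 2 = m + 1 by omega]
      push_cast
      nlinarith
  have htot := Finset.sum_le_sum (s := (univ : Finset (ℙ K (Fin 3 → K)))) fun l _ => hpt l
  rw [Finset.sum_add_distrib, ← Finset.mul_sum, ← Finset.mul_sum, ← Finset.mul_sum, sum_quad hS,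
    ← missing_eq, ← Nat.cast_sum] at htot
  have hK : 1 ≤ Fintype.card K := by omega
  generalize (∑ x : (ℙ K (Fin 3 → K)), inc S x * wt S x) = X at hsum htot
  zify [hK] at hsum ⊢
  linarith

end Run7.h255.NH
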